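import Pool.Agent.Lib.MP_8ac08c_co.SQ.Stm

set_option autoImplicit false

open Finset

namespace Pool.Agent.Lib.MP_8ac08c_co.SQ

private lemma avg_sum {G : Type} [AddCommGroup G] [DecidableEq G] (X T : Finset G) (b : G) :
    ∑ b' ∈ T, #(X.image (fun x => x + b) ∩ X.image (fun x => x + b')) ≤ #X ^ 2 := by
  rw [← Finset.card_sigma, sq, ← Finset.card_product]
  refine Finset.card_le_card_of_injOn (fun q : (_ : G) × G => (q.2 - b, q.2 - q.1)) ?_ ?_
  · rintro ⟨b', z⟩ hz
    simp only [Finset.coe_sigma, Set.mem_sigma_iff, Finset.mem_coe, Finset.mem_inter,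
      Finset.mem_image] at hz
    obtain ⟨-, ⟨x, hx, hxz⟩, ⟨x', hx', hxz'⟩⟩ := hz
    simp only [Finset.coe_product, Set.mem_prod, Finset.mem_coe]
    rw [← hxz, add_sub_cancel_right]
    refine ⟨hx, ?_⟩
    rw [hxz, ← hxz', add_sub_cancel_right]
    exact hx'
  · rintro ⟨b₁, z₁⟩ - ⟨b₂, z₂⟩ - h
    simp only [Prod.mk.injEq] at h
    obtain ⟨h1, h2⟩ := h
    have h3 : z₁ = z₂ := sub_left_injective h1
    subst h3
    have h4 : b₁ = b₂ := sub_right_injective h2
    subst h4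
    rfl

theorem p_avg : S_avg := by
  intro G _ _ X Y hY
  obtain ⟨b, hb⟩ : Y.Nonempty := by
    rw [← Finset.card_pos]
    omega
  by_contra hcon
  push Not at hcon
  have h1 : ∀ b' ∈ Y.erase b, #X ^ 2 + 1 ≤
      #(X.image (fun x => x + b) ∩ X.image (fun x => x + b')) * (#Y - 1) := by
    intro b' hb'
    rw [Finset.mem_erase] at hb'
    exact hcon b hb b' hb'.2 (Ne.symm hb'.1)
  have h2 := Finset.sum_le_sum h1
  rw [Finset.sum_const, ← Finset.sum_mul, Finset.card_erase_of_mem hb, smul_eq_mul] at h2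
  have h3 := Nat.mul_le_mul_right (#Y - 1) (avg_sum X (Y.erase b) b)
  have h4 := h2.trans h3
  rw [Nat.mul_comm] at h4
  have h5 := Nat.le_of_mul_le_mul_right h4 (by omega)
  omega

end Pool.Agent.Lib.MP_8ac08c_co.SQ
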