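import Pool.Agent.Lib.MP_8ac08c_co.SQ.Stm

/-!
# MP_8ac08c_co, project SQ, piece c1b: the direct construction
-/

set_option autoImplicit false

open Finset

namespace Pool.Agent.Lib.MP_8ac08c_co.SQ

/-- `a` or `-a`, with first coordinate `J a.1` -/
private def c1b_n {p : ℕ} (a : ZMod p × ZMod p) : ZMod p × ZMod p :=
  if a.1.val % 2 = 1 then a else -a

private lemma c1b_split {p : ℕ} (T : Finset (ZMod p × ZMod p)) :
    ∑ a ∈ T, c1b_n a = ∑ a ∈ T.filter (fun a => a.1.val % 2 = 1), a -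
      ∑ a ∈ T.filter (fun a => ¬ a.1.val % 2 = 1), a := by
  unfold c1b_n
  rw [Finset.sum_ite, Finset.sum_neg_distrib, sub_eq_add_neg]

private lemma c1b_sol {p : ℕ} (A T M : Finset (ZMod p × ZMod p)) (k : ℕ) (hT : T ⊆ A) (hM : M ⊆ A)
    (hTM : Disjoint T M) (hk : #T + #M = k) (h : ∑ a ∈ T, c1b_n a = ∑ a ∈ M, c1b_n a) :
    Sol A k := by
  have hTM' : ∀ a, a ∈ T → a ∈ M → False := fun a h1 h2 => Finset.disjoint_left.mp hTM h1 h2
  have d1 : Disjoint (T.filter fun a => a.1.val % 2 = 1) (M.filter fun a => ¬ a.1.val % 2 = 1) :=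
    Finset.disjoint_left.mpr fun a h1 h2 => hTM' a (mem_filter.mp h1).1 (mem_filter.mp h2).1
  have d2 : Disjoint (T.filter fun a => ¬ a.1.val % 2 = 1) (M.filter fun a => a.1.val % 2 = 1) :=
    Finset.disjoint_left.mpr fun a h1 h2 => hTM' a (mem_filter.mp h1).1 (mem_filter.mp h2).1
  refine ⟨(T.filter fun a => a.1.val % 2 = 1) ∪ (M.filter fun a => ¬ a.1.val % 2 = 1),
    (T.filter fun a => ¬ a.1.val % 2 = 1) ∪ (M.filter fun a => a.1.val % 2 = 1),
    union_subset ((filter_subset _ _).trans hT) ((filter_subset _ _).trans hM),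
    union_subset ((filter_subset _ _).trans hT) ((filter_subset _ _).trans hM), ?_, ?_, ?_⟩
  · rw [Finset.disjoint_left]
    intro a h1 h2
    rw [mem_union, mem_filter, mem_filter] at h1 h2
    rcases h1 with h1 | h1 <;> rcases h2 with h2 | h2
    · exact h2.2 h1.2
    · exact hTM' a h1.1 h2.1
    · exact hTM' a h2.1 h1.1
    · exact h1.2 h2.2
  · rw [card_union_of_disjoint d1, card_union_of_disjoint d2, ← hk]
    have e1 := Finset.card_filter_add_card_filter_not (s := T) (fun a => a.1.val % 2 = 1)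
    have e2 := Finset.card_filter_add_card_filter_not (s := M) (fun a => a.1.val % 2 = 1)
    omega
  · rw [sum_union d1, sum_union d2]
    rw [c1b_split, c1b_split] at h
    rw [sub_eq_sub_iff_add_eq_add] at h
    rw [h, add_comm]

private lemma c1b_J1 {p : ℕ} (hp : p.Prime) (hp2 : p ≠ 2) (v : ZMod p) (hv : v = 1 ∨ v = -1) :
    J v = 1 := by
  have : Fact p.Prime := ⟨hp⟩
  have : Fact (1 < p) := ⟨hp.one_lt⟩
  have hodd : p % 2 = 1 := hp.eq_two_or_odd.resolve_left hp2
  have h1 := hp.two_le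
  unfold J
  rcases hv with rfl | rfl
  · rw [ZMod.val_one]; rfl
  · have h2 : (-1 : ZMod p).val = p - 1 := by
      rw [ZMod.neg_val, if_neg one_ne_zero, ZMod.val_one]
    rw [h2, if_neg (by omega)]
    omega

theorem p_c1b (h1 : S_rsum) (h2 : S_jv) : S_c1b := by
  intro p hp hp2 A t K ht hA hW hU
  classical
  set U := A.filter fun a => a.1 = 1 ∨ a.1 = -1 with hUdef
  set W := A.filter fun a => ¬ (a.1 = 1 ∨ a.1 = -1) with hWdef
  have hUW : #U + #W = #A := Finset.card_filter_add_card_filter_not (s := A) _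
  have hdUW : Disjoint U W := Finset.disjoint_filter_filter_not _ _ _
  -- the parity of the sum of the `J`
  have hpar : ∀ V : Finset (ZMod p × ZMod p), ∃ k : ℕ, ∑ a ∈ V, J a.1 = #V + 2 * k := by
    intro V
    induction V using Finset.induction_on with
    | empty => exact ⟨0, by simp⟩
    | insert a V ha ih =>
      obtain ⟨k, hk⟩ := ih
      obtain ⟨m, hm⟩ := (h2 p hp hp2 a.1).1
      refine ⟨k + m, ?_⟩
      rw [sum_insert ha, card_insert_of_notMem ha, hk, hm]
      ring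
  obtain ⟨k, hk⟩ := hpar W
  have hkK : k ≤ K := by omega
  have hkU : k ≤ #U := by omega
  obtain ⟨M, hMU, hMk⟩ := Finset.exists_subset_card_eq hkU
  have hs : #(U \ M) + k = #U := by
    rw [← hMk]; exact Finset.card_sdiff_add_card_eq_card hMU
  -- the fibres
  have hfib : ∀ y : ZMod p, #((U \ M).filter fun a => (c1b_n a).2 = y) ≤ 2 := by
    intro y
    refine (card_le_card (t := {((1 : ZMod p), y), (-1, -y)}) ?_).trans Finset.card_le_two
    intro a ha
    rw [mem_filter, mem_sdiff, hUdef, mem_filter] at ha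
    obtain ⟨⟨⟨-, h3⟩, -⟩, h4⟩ := ha
    have hJ := c1b_J1 hp hp2 a.1 h3
    have hJ' := (h2 p hp hp2 a.1).2.2.1
    rw [hJ, Nat.cast_one] at hJ'
    unfold c1b_n at h4
    rw [mem_insert, mem_singleton]
    split_ifs at hJ' h4
    · left
      exact Prod.ext hJ'.symm h4
    · right
      refine Prod.ext ?_ ?_
      · show a.1 = -1
        rw [hJ', neg_neg]
      · show a.2 = -y
        rw [← h4, Prod.snd_neg, neg_neg]
  obtain ⟨O, hO, hOt, hOs⟩ := h1 p hp (ZMod p × ZMod p) (U \ M) (fun a => (c1b_n a).2) hfib t ht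
    (by omega) (∑ a ∈ U, (c1b_n a).2 - 2 * ∑ a ∈ M, (c1b_n a).2 + ∑ a ∈ W, (c1b_n a).2)
  have hR : #((U \ M) \ O) + t = #(U \ M) := by
    rw [← hOt]; exact Finset.card_sdiff_add_card_eq_card hO
  have hRU : (U \ M) \ O ⊆ U := sdiff_subset.trans sdiff_subset
  have hdRW : Disjoint ((U \ M) \ O) W := Finset.disjoint_of_subset_left hRU hdUW
  have hUA : U ⊆ A := filter_subset _ _
  have hWA : W ⊆ A := filter_subset _ _
  have hfst : ∀ a : ZMod p × ZMod p, (c1b_n a).1 = ((J a.1 : ℕ) : ZMod p) := by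
    intro a
    rw [(h2 p hp hp2 a.1).2.2.1]
    unfold c1b_n
    split_ifs <;> rfl
  have hfstU : ∀ V : Finset (ZMod p × ZMod p), V ⊆ U →
      ∑ a ∈ V, (c1b_n a).1 = ((#V : ℕ) : ZMod p) := by
    intro V hV
    rw [sum_congr rfl (g := fun _ => (1 : ZMod p)) ?_]
    · simp
    · intro a ha
      rw [hfst, c1b_J1 hp hp2 a.1 (mem_filter.mp (hV ha)).2, Nat.cast_one]
  refine c1b_sol A (((U \ M) \ O) ∪ W) M p (union_subset (hRU.trans hUA) hWA) (hMU.trans hUA)
    ?_ ?_ ?_
  · rw [disjoint_union_left]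
    refine ⟨?_, ?_⟩
    · rw [Finset.disjoint_left]
      intro a h3 h4
      exact (mem_sdiff.mp (mem_sdiff.mp h3).1).2 h4
    · exact (Finset.disjoint_of_subset_left hMU hdUW).symm
  · rw [card_union_of_disjoint hdRW]
    omega
  · rw [sum_union hdRW]
    refine Prod.ext ?_ ?_
    · rw [Prod.fst_add, Prod.fst_sum, Prod.fst_sum, Prod.fst_sum, hfstU _ hRU, hfstU _ hMU, hMk]
      have h3 : ∑ a ∈ W, (c1b_n a).1 = ((#W + 2 * k : ℕ) : ZMod p) := by
        rw [← hk, Nat.cast_sum]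
        exact sum_congr rfl fun a _ => hfst a
      rw [h3, ← Nat.cast_add]
      have h4 : #((U \ M) \ O) + (#W + 2 * k) = p + k := by omega
      rw [h4, Nat.cast_add, ZMod.natCast_self, zero_add]
    · rw [Prod.snd_add, Prod.snd_sum, Prod.snd_sum, Prod.snd_sum]
      have h3 : ∑ a ∈ (U \ M) \ O, (c1b_n a).2 + ∑ a ∈ O, (c1b_n a).2 =
          ∑ a ∈ U \ M, (c1b_n a).2 := sum_sdiff hO
      have h4 : ∑ a ∈ U \ M, (c1b_n a).2 + ∑ a ∈ M, (c1b_n a).2 = ∑ a ∈ U, (c1b_n a).2 :=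
        sum_sdiff hMU
      linear_combination h3 + h4 - hOs

end Pool.Agent.Lib.MP_8ac08c_co.SQ
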