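import Pool.Agent.Lib.MP_8ac08c_co.SQ.Stm

set_option autoImplicit false

open Finset

namespace Pool.Agent.Lib.MP_8ac08c_co.SQ

/-- a set of natural numbers of diameter at most `L` has at most `L + 1` elements -/
private theorem cnt_card (S : Finset ℕ) (L : ℝ) (hL : 0 ≤ L)
    (h : ∀ k ∈ S, ∀ l ∈ S, (k : ℝ) - l ≤ L) : (#S : ℝ) ≤ L + 1 := by
  rcases S.eq_empty_or_nonempty with rfl | hne
  · simp only [card_empty, Nat.cast_zero]
    linarith
  · have h1 : S ⊆ Icc (S.min' hne) (S.max' hne) := fun k hk =>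
      mem_Icc.2 ⟨S.min'_le k hk, S.le_max' k hk⟩
    have h2 := card_le_card h1
    rw [Nat.card_Icc] at h2
    have h3 : S.min' hne ≤ S.max' hne := S.min'_le_max' hne
    have h4 : #S + S.min' hne ≤ S.max' hne + 1 := by omega
    have h5 : (#S : ℝ) + (S.min' hne : ℕ) ≤ (S.max' hne : ℕ) + 1 := by exact_mod_cast h4
    have h6 := h _ (S.max'_mem hne) _ (S.min'_mem hne)
    linarith

/-- `2 |x - m| ≤ |sin (π x)|` for `|x - m| ≤ 1/2` -/
private theorem cnt_sin (x : ℝ) (m : ℤ) (h : |x - m| ≤ 1 / 2) :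
    2 * |x - m| ≤ |Real.sin (Real.pi * x)| := by
  have h1 : |Real.sin (Real.pi * x)| = |Real.sin (Real.pi * (x - m))| := by
    have h2 : Real.pi * x = Real.pi * (x - m) + m * Real.pi := by ring
    rw [h2, Real.sin_add_int_mul_pi, abs_mul]
    rcases Int.even_or_odd m with hm | hm
    · rw [hm.neg_one_zpow, abs_one, one_mul]
    · rw [hm.neg_one_zpow, abs_neg, abs_one, one_mul]
  have hpi := Real.pi_pos
  have h3 : |Real.pi * (x - m)| = Real.pi * |x - m| := by
    rw [abs_mul, abs_of_pos hpi]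
  have h4 : |Real.pi * (x - m)| ≤ Real.pi / 2 := by
    rw [h3]
    nlinarith
  have h5 := Real.mul_abs_le_abs_sin h4
  rw [h1]
  refine le_trans (le_of_eq ?_) h5
  rw [h3]
  field_simp

theorem p_cnt : S_cnt := by
  intro p hp η hη
  have hp0 : (0 : ℝ) < p := by
    have : (2 : ℝ) ≤ p := by exact_mod_cast hp
    linarith
  have hL : 0 < η * p := by positivity
  obtain ⟨S0, hS0⟩ : ∃ S0 : Finset ℕ, S0 = (range p).filter fun k : ℕ => (k : ℝ) < η * p / 4 :=
    ⟨_, rfl⟩
  obtain ⟨S1, hS1⟩ : ∃ S1 : Finset ℕ, S1 = (range p).filter fun k : ℕ =>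
    |(k : ℝ) - p / 2| < η * p / 4 := ⟨_, rfl⟩
  obtain ⟨S2, hS2⟩ : ∃ S2 : Finset ℕ, S2 = (range p).filter fun k : ℕ =>
    (p : ℝ) - k < η * p / 4 := ⟨_, rfl⟩
  have hsub : ((range p).filter fun k : ℕ => |Real.sin (2 * Real.pi * (k : ℝ) / p)| < η) ⊆
      S0 ∪ S1 ∪ S2 := by
    intro k hk
    obtain ⟨hkp, hk⟩ := mem_filter.1 hk
    have hkp' : (k : ℝ) < p := by exact_mod_cast mem_range.1 hkp
    have hk0 : (0 : ℝ) ≤ k := Nat.cast_nonneg k
    obtain ⟨y, hy⟩ : ∃ y : ℝ, y = 2 * k / p := ⟨_, rfl⟩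
    have hy0 : 0 ≤ y := by
      rw [hy]
      positivity
    have hy2 : y < 2 := by
      rw [hy, div_lt_iff₀ hp0]
      linarith
    have hky : (k : ℝ) = y * p / 2 := by
      rw [hy]
      field_simp
    have hs : 2 * Real.pi * (k : ℝ) / p = Real.pi * y := by
      rw [hy]
      ring
    rw [hs] at hk
    rw [mem_union, mem_union]
    rcases le_or_gt y (1 / 2) with h1 | h1
    · left
      left
      rw [hS0]
      refine mem_filter.2 ⟨hkp, ?_⟩
      have h2 := cnt_sin y 0 (by
        rw [Int.cast_zero, sub_zero, abs_of_nonneg hy0]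
        exact h1)
      rw [Int.cast_zero, sub_zero, abs_of_nonneg hy0] at h2
      have h3 : y < η / 2 := by linarith
      rw [hky]
      nlinarith
    · rcases le_or_gt y (3 / 2) with h2 | h2
      · left
        right
        rw [hS1]
        refine mem_filter.2 ⟨hkp, ?_⟩
        have h3 := cnt_sin y 1 (by
          rw [Int.cast_one, abs_le]
          constructor <;> linarith)
        rw [Int.cast_one] at h3
        have h4 : |y - 1| < η / 2 := by linarith
        have h5 : (k : ℝ) - p / 2 = (y - 1) * (p / 2) := by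
          rw [hky]
          ring
        rw [h5, abs_mul, abs_of_pos (by positivity : (0 : ℝ) < p / 2)]
        nlinarith
      · right
        rw [hS2]
        refine mem_filter.2 ⟨hkp, ?_⟩
        have h3 := cnt_sin y 2 (by
          rw [Int.cast_ofNat, abs_le]
          constructor <;> linarith)
        rw [Int.cast_ofNat] at h3
        have h4 : |y - 2| < η / 2 := by linarith
        have h5 : 2 - y < η / 2 := by
          have := (abs_lt.1 h4).1
          linarith
        rw [hky]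
        nlinarith
  have c0 : (#S0 : ℝ) ≤ η * p / 4 + 1 := by
    refine cnt_card S0 _ (by positivity) fun k hk l hl => ?_
    rw [hS0] at hk
    have h1 := (mem_filter.1 hk).2
    have h2 : (0 : ℝ) ≤ l := Nat.cast_nonneg l
    linarith
  have c1 : (#S1 : ℝ) ≤ η * p / 2 + 1 := by
    refine cnt_card S1 _ (by positivity) fun k hk l hl => ?_
    rw [hS1] at hk hl
    have h1 := abs_lt.1 (mem_filter.1 hk).2
    have h2 := abs_lt.1 (mem_filter.1 hl).2
    linarith [h1.2, h2.1]
  have c2 : (#S2 : ℝ) ≤ η * p / 4 + 1 := by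
    refine cnt_card S2 _ (by positivity) fun k hk l hl => ?_
    rw [hS2] at hk hl
    have h1 : (k : ℝ) < p := by exact_mod_cast mem_range.1 (mem_filter.1 hk).1
    have h2 := (mem_filter.1 hl).2
    linarith
  have h1 := card_le_card hsub
  have h2 : #(S0 ∪ S1 ∪ S2) ≤ #S0 + #S1 + #S2 :=
    (card_union_le _ _).trans (Nat.add_le_add_right (card_union_le _ _) _)
  have h3 : (#((range p).filter fun k : ℕ => |Real.sin (2 * Real.pi * (k : ℝ) / p)| < η) : ℝ) ≤
      #S0 + #S1 + #S2 := by exact_mod_cast h1.trans h2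
  linarith

end Pool.Agent.Lib.MP_8ac08c_co.SQ
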