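import Pool.Agent.Lib.MP_8ac08c_co.SQ.Stm

/-!
# MP_8ac08c_co, project SQ, piece conc: concentration on few first coordinates
-/

set_option autoImplicit false

open Finset

namespace Pool.Agent.Lib.MP_8ac08c_co.SQ

theorem p_conc (h1 : S_cnt) : S_conc := by
  intro p hp A R η hη hR
  classical
  have : NeZero p := ⟨hp.ne_zero⟩
  refine ⟨A.filter (fun a => |Real.sin (2 * Real.pi * (a.1.val : ℝ) / p)| < η),
    filter_subset _ _, ?_, ?_⟩
  · set Y := A.filter (fun a => |Real.sin (2 * Real.pi * (a.1.val : ℝ) / p)| < η) with hY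
    have hlow : ∀ a ∈ A \ Y, η ^ 2 ≤ Real.sin (2 * Real.pi * (a.1.val : ℝ) / p) ^ 2 := by
      intro a ha
      rw [mem_sdiff, hY, mem_filter] at ha
      have h2 : η ≤ |Real.sin (2 * Real.pi * (a.1.val : ℝ) / p)| := by
        by_contra h
        exact ha.2 ⟨ha.1, not_le.mp h⟩
      rw [← sq_abs (Real.sin _)]
      exact pow_le_pow_left₀ hη.le h2 2
    calc (#(A \ Y) : ℝ) * η ^ 2 = ∑ _a ∈ A \ Y, η ^ 2 := by rw [sum_const, nsmul_eq_mul]
      _ ≤ ∑ a ∈ A \ Y, Real.sin (2 * Real.pi * (a.1.val : ℝ) / p) ^ 2 := sum_le_sum hlow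
      _ ≤ ∑ a ∈ A, Real.sin (2 * Real.pi * (a.1.val : ℝ) / p) ^ 2 :=
          sum_le_sum_of_subset_of_nonneg sdiff_subset fun a _ _ => sq_nonneg _
      _ ≤ R := hR
  · refine le_trans ?_ (h1 p hp.two_le η hη)
    have h2 : #((A.filter (fun a => |Real.sin (2 * Real.pi * (a.1.val : ℝ) / p)| < η)).image Prod.fst)
        ≤ #((range p).filter fun k : ℕ => |Real.sin (2 * Real.pi * (k : ℝ) / p)| < η) := by
      refine Finset.card_le_card_of_injOn (fun v : ZMod p => v.val) ?_ (ZMod.val_injective p).injOn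
      intro v hv
      have hv' := Finset.mem_coe.mp hv
      rw [mem_image] at hv'
      obtain ⟨a, ha, rfl⟩ := hv'
      rw [mem_filter] at ha
      exact Finset.mem_coe.mpr (mem_filter.mpr ⟨mem_range.mpr (ZMod.val_lt _), ha.2⟩)
    exact_mod_cast h2

end Pool.Agent.Lib.MP_8ac08c_co.SQ
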