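import Pool.Agent.Lib.MP_8ac08c_co.SQ.Stm

/-!
# MP_8ac08c_co, project SQ, piece dis: dissociated sets are small
-/

set_option autoImplicit false

open Finset

namespace Pool.Agent.Lib.MP_8ac08c_co.SQ

theorem p_dis : S_dis := by
  classical
  intro p hp C hC
  have : NeZero p := ⟨hp.ne'⟩
  have hinj : Set.InjOn (fun S : Finset (ZMod p × ZMod p) =>
      ((∑ x ∈ S, x.1 : ZMod p), ((#S : ℕ) : ZMod 2))) (C.powerset : Set (Finset _)) := by
    intro S hS S' hS' h
    rw [mem_coe, mem_powerset] at hS hS'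
    simp only [Prod.mk.injEq] at h
    obtain ⟨h1, h2⟩ := h
    rw [ZMod.natCast_eq_natCast_iff'] at h2
    have s1 := sum_inter_add_sum_sdiff S S' (fun x : ZMod p × ZMod p => x.1)
    have s2 := sum_inter_add_sum_sdiff S' S (fun x : ZMod p × ZMod p => x.1)
    rw [inter_comm S' S] at s2
    have c1 := card_sdiff_add_card_inter S S'
    have c2 := card_sdiff_add_card_inter S' S
    rw [inter_comm S' S] at c2
    have hsum : ∑ x ∈ S \ S', x.1 = ∑ x ∈ S' \ S, x.1 := by
      have h3 := s1.trans (h1.trans s2.symm)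
      exact add_left_cancel h3
    have hev : Even (#(S \ S') + #(S' \ S)) := by
      rw [Nat.even_iff]
      omega
    obtain ⟨e1, e2⟩ := hC (S \ S') (S' \ S) (sdiff_subset.trans hS) (sdiff_subset.trans hS')
      disjoint_sdiff_sdiff hev hsum
    rw [sdiff_eq_empty_iff_subset] at e1 e2
    exact subset_antisymm e1 e2
  have h3 : #C.powerset ≤ #(univ : Finset (ZMod p × ZMod 2)) :=
    card_le_card_of_injOn _ (fun _ _ => mem_univ _) hinj
  rw [card_powerset, card_univ, Fintype.card_prod, ZMod.card, ZMod.card] at h3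
  have h4 := Nat.le_log_of_pow_le (by norm_num : 1 < 2) h3
  rw [Nat.log_mul_base (by norm_num) hp.ne'] at h4
  omega

end Pool.Agent.Lib.MP_8ac08c_co.SQ
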