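import Pool.Agent.Lib.MP_8ac08c_co.SQ.Stm

set_option autoImplicit false

open Finset

namespace Pool.Agent.Lib.MP_8ac08c_co.SQ

theorem eo_mem {p : ℕ} [NeZero p] (i : ℕ) (s : Finset (ZMod p × ZMod p)) (z : ZMod p) :
    z ∈ EO i s ↔ ∃ P N : Finset (ZMod p × ZMod p), P ⊆ s ∧ N ⊆ s ∧ Disjoint P N ∧
      (#P + #N) % 2 = i % 2 ∧ ∑ x ∈ P, x.1 - ∑ x ∈ N, x.1 = z := by
  classical
  rw [EO, mem_filter]
  exact and_iff_right (mem_univ z)

theorem eo_two {p : ℕ} [NeZero p] (i : ℕ) (s : Finset (ZMod p × ZMod p)) :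
    EO (i + 1 + 1) s = EO i s := by
  ext z
  rw [eo_mem, eo_mem]
  have h : (i + 1 + 1) % 2 = i % 2 := by omega
  rw [h]

theorem eo_neg {p : ℕ} [NeZero p] (i : ℕ) (s : Finset (ZMod p × ZMod p)) (z : ZMod p)
    (h : z ∈ EO i s) : -z ∈ EO i s := by
  rw [eo_mem] at h ⊢
  obtain ⟨P, N, hP, hN, hd, hc, hz⟩ := h
  refine ⟨N, P, hN, hP, hd.symm, by rw [add_comm]; exact hc, ?_⟩
  rw [← hz]
  ring

theorem eo_add {p : ℕ} [NeZero p] (i : ℕ) (s : Finset (ZMod p × ZMod p))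
    (a : ZMod p × ZMod p) (ha : a ∉ s) (z : ZMod p) (h : z ∈ EO i s) :
    z + a.1 ∈ EO (i + 1) (insert a s) := by
  rw [eo_mem] at h ⊢
  obtain ⟨P, N, hP, hN, hd, hc, hz⟩ := h
  have haP : a ∉ P := fun h => ha (hP h)
  have haN : a ∉ N := fun h => ha (hN h)
  refine ⟨insert a P, N, insert_subset_insert a hP, hN.trans (subset_insert a s), ?_, ?_, ?_⟩
  · rw [disjoint_insert_left]
    exact ⟨haN, hd⟩
  · rw [card_insert_of_notMem haP]
    omega
  · rw [sum_insert haP, ← hz]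
    ring

theorem eo_sub {p : ℕ} [NeZero p] (i : ℕ) (s : Finset (ZMod p × ZMod p))
    (a : ZMod p × ZMod p) (ha : a ∉ s) (z : ZMod p) (h : z ∈ EO i s) :
    z - a.1 ∈ EO (i + 1) (insert a s) := by
  have h1 := eo_neg _ _ _ (eo_add i s a ha (-z) (eo_neg i s z h))
  have e : -(-z + a.1) = z - a.1 := by ring
  rwa [e] at h1

theorem p_eo : S_eo := by
  intro p _ s i
  refine ⟨?_, ?_, ?_, ?_, ?_⟩
  · intro s' hs z hz
    rw [eo_mem] at hz ⊢
    obtain ⟨P, N, hP, hN, h⟩ := hz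
    exact ⟨P, N, hP.trans hs, hN.trans hs, h⟩
  · intro a ha z hz
    exact ⟨eo_add i s a ha z hz, eo_sub i s a ha z hz⟩
  · intro a ha b hb hab z hz
    have ha' : a ∉ insert b s := by
      rw [mem_insert, not_or]
      exact ⟨hab, ha⟩
    have h1 := eo_add i s b hb z hz
    have h2 := eo_sub i s b hb z hz
    have h3 := eo_add (i + 1) _ a ha' _ h1
    have h4 := eo_sub (i + 1) _ a ha' _ h1
    have h5 := eo_add (i + 1) _ a ha' _ h2
    have h6 := eo_sub (i + 1) _ a ha' _ h2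
    rw [eo_two] at h3 h4 h5 h6
    refine ⟨?_, ?_, ?_, ?_⟩
    · have e : z + a.1 + b.1 = z + b.1 + a.1 := by ring
      rw [e]
      exact h3
    · have e : z + a.1 - b.1 = z - b.1 + a.1 := by ring
      rw [e]
      exact h5
    · have e : z - a.1 + b.1 = z + b.1 - a.1 := by ring
      rw [e]
      exact h4
    · have e : z - a.1 - b.1 = z - b.1 - a.1 := by ring
      rw [e]
      exact h6
  · rw [eo_mem]
    exact ⟨∅, ∅, empty_subset _, empty_subset _, disjoint_empty_left _, by simp, by simp⟩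
  · rw [eo_mem, OddSol]
    constructor
    · rintro ⟨P, N, hP, hN, hd, hc, hz⟩
      exact ⟨P, N, hP, hN, hd, Nat.odd_iff.mpr hc, sub_eq_zero.mp hz⟩
    · rintro ⟨P, N, hP, hN, hd, hc, hz⟩
      exact ⟨P, N, hP, hN, hd, Nat.odd_iff.mp hc, sub_eq_zero.mpr hz⟩

end Pool.Agent.Lib.MP_8ac08c_co.SQ
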