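import Pool.Agent.Lib.MP_8ac08c_co.SQ.Stm

/-!
# MP_8ac08c_co, SQ, piece fca: orthogonality of the characters of `Z_p × Z_p`
-/

set_option autoImplicit false

open Finset

namespace Pool.Agent.Lib.MP_8ac08c_co.SQ

private theorem fca_exp {p : ℕ} [NeZero p] (c b : ZMod p × ZMod p) :
    (((2 * Real.cos (ang c b) : ℝ)) : ℂ) =
      ZMod.stdAddChar (c.1 * b.1 + c.2 * b.2) + ZMod.stdAddChar (-(c.1 * b.1 + c.2 * b.2)) := by
  rw [AddChar.map_neg_eq_inv, ZMod.stdAddChar_apply, ZMod.toCircle_apply, ← Complex.exp_neg]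
  push_cast
  rw [Complex.two_cos]
  unfold ang
  push_cast
  congr 1
  · congr 1
    ring
  · congr 1
    ring

private theorem fca_sum {R ι : Type} [AddCommGroup R] [DecidableEq ι] (ψ : AddChar R ℂ)
    (s : Finset ι) (f : ι → R) : ψ (∑ i ∈ s, f i) = ∏ i ∈ s, ψ (f i) := by
  induction s using Finset.induction_on with
  | empty => simp
  | insert a s ha ih =>
    rw [Finset.sum_insert ha, Finset.prod_insert ha, AddChar.map_add_eq_mul, ih]

private theorem fca_prod {p : ℕ} [NeZero p] (B : Finset (ZMod p × ZMod p))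
    (c : ZMod p × ZMod p) :
    ((∏ b ∈ B, (2 * Real.cos (ang c b)) : ℝ) : ℂ) =
      ∑ P ∈ B.powerset, (ZMod.stdAddChar (c.1 * (∑ x ∈ P, x - ∑ x ∈ B \ P, x).1) : ℂ) *
        ZMod.stdAddChar (c.2 * (∑ x ∈ P, x - ∑ x ∈ B \ P, x).2) := by
  rw [Complex.ofReal_prod]
  simp only [fca_exp]
  rw [Finset.prod_add]
  refine Finset.sum_congr rfl fun P _ => ?_
  rw [← fca_sum, ← fca_sum, ← AddChar.map_add_eq_mul, ← AddChar.map_add_eq_mul]
  congr 1
  rw [Prod.fst_sub, Prod.snd_sub, Prod.fst_sum, Prod.snd_sum, Prod.fst_sum, Prod.snd_sum]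
  rw [Finset.sum_add_distrib, Finset.sum_neg_distrib, Finset.sum_add_distrib]
  simp only [Finset.mul_sum, mul_sub]
  ring

private theorem fca_orth {p : ℕ} [NeZero p] (hp : p.Prime) (g : ZMod p × ZMod p) :
    ∑ c : ZMod p × ZMod p, (ZMod.stdAddChar (c.1 * g.1) : ℂ) * ZMod.stdAddChar (c.2 * g.2) =
      if g = 0 then (p : ℂ) ^ 2 else 0 := by
  have : Fact p.Prime := ⟨hp⟩
  rw [Fintype.sum_prod_type]
  simp only
  rw [← Finset.sum_mul_sum]
  rw [AddChar.sum_mulShift g.1 (ZMod.isPrimitive_stdAddChar p),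
    AddChar.sum_mulShift g.2 (ZMod.isPrimitive_stdAddChar p), ZMod.card]
  by_cases h1 : g.1 = 0
  · by_cases h2 : g.2 = 0
    · rw [if_pos h1, if_pos h2, if_pos (Prod.ext h1 h2)]
      ring
    · have h3 : g ≠ 0 := fun h => h2 (by rw [h]; rfl)
      rw [if_neg h2, if_neg h3]
      simp
  · have h3 : g ≠ 0 := fun h => h1 (by rw [h]; rfl)
    rw [if_neg h1, if_neg h3]
    simp

theorem p_fca : S_fca := by
  intro p hp _ B
  have key : ((∑ c : ZMod p × ZMod p, ∏ b ∈ B, (2 * Real.cos (ang c b)) : ℝ) : ℂ) =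
      (((p : ℝ) ^ 2 * #(B.powerset.filter fun P => ∑ x ∈ P, x = ∑ x ∈ B \ P, x) : ℝ) : ℂ) := by
    rw [Complex.ofReal_sum]
    simp only [fca_prod]
    rw [Finset.sum_comm]
    simp only [fca_orth hp]
    rw [← Finset.sum_filter]
    have e : (B.powerset.filter fun P => ∑ x ∈ P, x - ∑ x ∈ B \ P, x = 0) =
        (B.powerset.filter fun P => ∑ x ∈ P, x = ∑ x ∈ B \ P, x) := by
      refine Finset.filter_congr fun P _ => ?_
      exact sub_eq_zero
    rw [e, Finset.sum_const, nsmul_eq_mul]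
    push_cast
    ring
  exact_mod_cast key

end Pool.Agent.Lib.MP_8ac08c_co.SQ
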