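import Mathlib
import Pool.Agent.Lib.MP_8ac08c_co.SQ.Stm

set_option autoImplicit false

/-!
# [SQ fcb] bound for a product of cosines (helper82)
-/

open Finset

namespace Pool.Agent.Lib.MP_8ac08c_co.SQ

theorem fcb_cos (x : ℝ) : |Real.cos x| ≤ Real.exp (-(Real.sin x ^ 2) / 2) := by
  refine abs_le_of_sq_le_sq ?_ (Real.exp_pos _).le
  rw [← Real.exp_nat_mul]
  have h1 : Real.cos x ^ 2 = 1 - Real.sin x ^ 2 := by
    have := Real.sin_sq_add_cos_sq x
    linarith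
  have h2 := Real.one_sub_le_exp_neg (Real.sin x ^ 2)
  have h3 : ((2 : ℕ) : ℝ) * (-(Real.sin x ^ 2) / 2) = -(Real.sin x ^ 2) := by
    push_cast
    ring
  rw [h3, h1]
  exact h2

theorem p_fcb : S_fcb := by
  intro ι _ θ A B hBA
  calc ∏ b ∈ B, |Real.cos (θ b)| ≤ ∏ b ∈ B, Real.exp (-(Real.sin (θ b) ^ 2) / 2) :=
        Finset.prod_le_prod (fun _ _ => abs_nonneg _) (fun b _ => fcb_cos (θ b))
    _ = Real.exp (∑ b ∈ B, -(Real.sin (θ b) ^ 2) / 2) := (Real.exp_sum _ _).symm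
    _ ≤ Real.exp (-(∑ a ∈ A, Real.sin (θ a) ^ 2 - ((#A : ℝ) - #B)) / 2) := by
        refine Real.exp_le_exp.2 ?_
        have h1 : ∑ a ∈ A \ B, Real.sin (θ a) ^ 2 + ∑ a ∈ B, Real.sin (θ a) ^ 2 =
            ∑ a ∈ A, Real.sin (θ a) ^ 2 := Finset.sum_sdiff hBA
        have h2 : ∑ a ∈ A \ B, Real.sin (θ a) ^ 2 ≤ (#(A \ B) : ℝ) := by
          have h := Finset.sum_le_card_nsmul (A \ B) (fun a => Real.sin (θ a) ^ 2) 1
            (fun a _ => by
              have := Real.sin_sq_le_one (θ a)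
              exact this)
          simpa using h
        have h3 : (#(A \ B) : ℝ) = (#A : ℝ) - #B := by
          rw [Finset.card_sdiff_of_subset hBA, Nat.cast_sub (Finset.card_le_card hBA)]
        have h4 : ∑ b ∈ B, -(Real.sin (θ b) ^ 2) / 2 = -(∑ b ∈ B, Real.sin (θ b) ^ 2) / 2 := by
          rw [← Finset.sum_neg_distrib, Finset.sum_div]
        rw [h4]
        linarith

end Pool.Agent.Lib.MP_8ac08c_co.SQ
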