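import Mathlib
import Pool.Agent.Lib.MP_8ac08c_co.SQ.Stm

set_option autoImplicit false

/-!
# [SQ fin] finishing with a maximal odd solution (helper82)
-/

open Finset

namespace Pool.Agent.Lib.MP_8ac08c_co.SQ

/-- union of two disjoint signed sets -/
theorem fin_union {G : Type} [DecidableEq G] {M : Type} [AddCommGroup M] (f : G → M)
    {P N P' N' : Finset G} (h1 : Disjoint P N) (h2 : Disjoint P' N')
    (h3 : Disjoint (P ∪ N) (P' ∪ N')) {g g' : M}
    (h4 : ∑ x ∈ P, f x = ∑ x ∈ N, f x + g) (h5 : ∑ x ∈ P', f x = ∑ x ∈ N', f x + g') :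
    Disjoint (P ∪ P') (N ∪ N') ∧ #(P ∪ P') + #(N ∪ N') = (#P + #N) + (#P' + #N') ∧
      ∑ x ∈ P ∪ P', f x = ∑ x ∈ N ∪ N', f x + (g + g') := by
  rw [Finset.disjoint_union_left, Finset.disjoint_union_right,
    Finset.disjoint_union_right] at h3
  obtain ⟨⟨ha, hb⟩, hc, hd⟩ := h3
  refine ⟨?_, ?_, ?_⟩
  · rw [Finset.disjoint_union_left, Finset.disjoint_union_right, Finset.disjoint_union_right]
    exact ⟨⟨h1, hb⟩, hc.symm, h2⟩
  · rw [Finset.card_union_of_disjoint ha, Finset.card_union_of_disjoint hd]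
    omega
  · rw [Finset.sum_union ha, Finset.sum_union hd, h4, h5]
    abel

theorem fin_flat_append {G : Type} (l l' : List (G × G)) :
    flat (l ++ l') = flat l ++ flat l' := by
  unfold flat
  rw [List.flatMap_append]

theorem fin_flat_drop {G : Type} (l : List (G × G)) (e : ℕ) :
    (flat (l.drop e)).Sublist (flat l) := by
  conv_rhs => rw [← List.take_append_drop e l]
  rw [fin_flat_append]
  exact List.sublist_append_right _ _

theorem p_fin (h1 : S_dis) (h2 : S_app) (h3 : S_sel) : S_fin := by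
  intro p hp hp2 _ A l₁ l₂ hA hPL hsg ht hodd
  have hpo : Odd p := hp.odd_of_ne_two hp2
  set t := Nat.log 2 p with htdef
  set F := (flat (l₁ ++ l₂)).toFinset with hF
  set A' := A \ F with hA'
  have hFA : F ⊆ A := fun z hz => hPL.mem z (List.mem_toFinset.1 hz)
  have hFc : #F = 2 * l₁.length + 2 * l₂.length := by
    rw [hF, List.toFinset_card_of_nodup hPL.nodup, (h2 p (l₁ ++ l₂) []).2.2.2.2,
      List.length_append]
    ring
  have hA'c : #A' + #F = #A := by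
    rw [hA']
    exact Finset.card_sdiff_add_card_eq_card hFA
  -- the odd solutions
  set T := (A'.powerset ×ˢ A'.powerset).filter (fun x => Disjoint x.1 x.2 ∧
    Odd (#x.1 + #x.2) ∧ ∑ y ∈ x.1, y.1 = ∑ y ∈ x.2, y.1) with hT
  have hTmem : ∀ P N : Finset (ZMod p × ZMod p), (P, N) ∈ T ↔ (P ⊆ A' ∧ N ⊆ A') ∧
      Disjoint P N ∧ Odd (#P + #N) ∧ ∑ y ∈ P, y.1 = ∑ y ∈ N, y.1 := by
    intro P N
    rw [hT, Finset.mem_filter, Finset.mem_product, Finset.mem_powerset, Finset.mem_powerset]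
  have hTn : T.Nonempty := by
    obtain ⟨P, N, hP, hN, hd, ho, hs⟩ := hodd
    exact ⟨(P, N), (hTmem P N).2 ⟨⟨hP, hN⟩, hd, ho, hs⟩⟩
  obtain ⟨⟨P₁, N₁⟩, hm, hmax⟩ := Finset.exists_max_image T (fun x => #x.1 + #x.2) hTn
  obtain ⟨⟨hP1, hN1⟩, hd1, ho1, hs1⟩ := (hTmem P₁ N₁).1 hm
  have hU : P₁ ∪ N₁ ⊆ A' := Finset.union_subset hP1 hN1
  have hUc : #(P₁ ∪ N₁) = #P₁ + #N₁ := Finset.card_union_of_disjoint hd1
  have hdis : #(A' \ (P₁ ∪ N₁)) ≤ 1 + t := by
    refine h1 p hp.pos _ fun P N hP hN hd he hs => ?_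
    have hdU : Disjoint (P₁ ∪ N₁) (P ∪ N) := by
      refine Finset.disjoint_left.2 fun x hx hx' => ?_
      have : x ∈ A' \ (P₁ ∪ N₁) := (Finset.union_subset hP hN) hx'
      exact (Finset.mem_sdiff.1 this).2 hx
    obtain ⟨ha, hb, hc⟩ := fin_union (fun y : ZMod p × ZMod p => y.1) hd1 hd hdU
      (g := 0) (g' := 0) (by rw [hs1, add_zero]) (by rw [hs, add_zero])
    have hin : (P₁ ∪ P, N₁ ∪ N) ∈ T := by
      refine (hTmem _ _).2 ⟨⟨Finset.union_subset hP1 (hP.trans Finset.sdiff_subset),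
        Finset.union_subset hN1 (hN.trans Finset.sdiff_subset)⟩, ha, ?_, ?_⟩
      · rw [hb]
        exact ho1.add_even he
      · rw [hc, add_zero, add_zero]
    have hle := hmax _ hin
    simp only at hle
    rw [hb] at hle
    have hz : #P + #N = 0 := by omega
    constructor
    · exact Finset.card_eq_zero.1 (by omega)
    · exact Finset.card_eq_zero.1 (by omega)
  have hCc : #(A' \ (P₁ ∪ N₁)) + #(P₁ ∪ N₁) = #A' :=
    Finset.card_sdiff_add_card_eq_card hU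
  set s := #P₁ + #N₁ with hs
  set q := l₁.length + l₂.length with hq
  -- p ≤ s + 2 q and s + 2 q - p = 2 e
  have hk1 : p ≤ s + 2 * q := by
    obtain ⟨a, ha⟩ := hpo
    obtain ⟨b, hb⟩ := ho1
    omega
  have hk2 : s + 2 * q ≤ p + t := by omega
  obtain ⟨e, he⟩ : ∃ e, s + 2 * q = p + 2 * e := by
    obtain ⟨a, ha⟩ := hpo
    obtain ⟨b, hb⟩ := ho1
    exact ⟨b + q - a, by omega⟩
  have hel : e ≤ l₂.length := by omega
  -- the lists
  have hflat : flat (l₁ ++ l₂) = flat l₁ ++ flat l₂ := fin_flat_append l₁ l₂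
  have hnd : (flat l₁ ++ flat l₂).Nodup := by
    rw [← hflat]
    exact hPL.nodup
  rw [List.nodup_append] at hnd
  obtain ⟨hn1, hn2, hn3⟩ := hnd
  have hsub := fin_flat_drop l₂ e
  have hPL2 : PairList A (l₂.drop e) := by
    refine ⟨hn2.sublist hsub, fun z hz => ?_, fun x hx => ?_⟩
    · exact hPL.mem z (by rw [hflat]; exact List.mem_append_right _ (hsub.subset hz))
    · exact hPL.fst x (List.mem_append_right _ (List.mem_of_mem_drop hx))
  have hPL1 : PairList A l₁ := ((h2 p l₁ l₂).2.2.2.1 A hPL).1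
  obtain ⟨z₂, hz₂⟩ := (h2 p (l₂.drop e) []).2.1
  obtain ⟨P₂, N₂, hu2, hd2, hc2, hs2⟩ := h3 p A _ hPL2 z₂ hz₂
  set z₁ := ∑ x ∈ P₁, x.2 - ∑ x ∈ N₁, x.2 with hz₁
  have hs1' : ∑ x ∈ P₁, x = ∑ x ∈ N₁, x + (0, z₁) := by
    refine Prod.ext ?_ ?_
    · rw [Prod.fst_add, Prod.fst_sum, Prod.fst_sum]
      simpa using hs1
    · rw [Prod.snd_add, Prod.snd_sum, Prod.snd_sum, hz₁]
      simp
  obtain ⟨P₃, N₃, hu3, hd3, hc3, hs3⟩ := h3 p A l₁ hPL1 (-z₁ - z₂) (by rw [hsg]; exact mem_univ _)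
  -- disjointness
  have hF2 : P₂ ∪ N₂ ⊆ F := by
    rw [hu2, hF, hflat]
    intro x hx
    exact List.mem_toFinset.2 (List.mem_append_right _ (hsub.subset (List.mem_toFinset.1 hx)))
  have hF3 : P₃ ∪ N₃ ⊆ F := by
    rw [hu3, hF, hflat]
    intro x hx
    exact List.mem_toFinset.2 (List.mem_append_left _ (List.mem_toFinset.1 hx))
  have hdis12 : Disjoint (P₁ ∪ N₁) (P₂ ∪ N₂) := by
    refine Finset.disjoint_left.2 fun x hx hx' => ?_
    exact (Finset.mem_sdiff.1 (hU hx)).2 (hF2 hx')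
  obtain ⟨ha, hb, hc⟩ := fin_union (fun y : ZMod p × ZMod p => y) hd1 hd2 hdis12 hs1' hs2
  have hdis123 : Disjoint ((P₁ ∪ P₂) ∪ (N₁ ∪ N₂)) (P₃ ∪ N₃) := by
    refine Finset.disjoint_left.2 fun x hx hx' => ?_
    have hx1 : x ∈ P₁ ∪ N₁ ∨ x ∈ P₂ ∪ N₂ := by
      simp only [Finset.mem_union] at hx ⊢
      tauto
    rcases hx1 with hx1 | hx1
    · exact (Finset.mem_sdiff.1 (hU hx1)).2 (hF3 hx')
    · rw [hu2, List.mem_toFinset] at hx1
      rw [hu3, List.mem_toFinset] at hx'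
      exact hn3 x hx' x (hsub.subset hx1) rfl
  obtain ⟨ha', hb', hc'⟩ := fin_union (fun y : ZMod p × ZMod p => y) ha hd3 hdis123 hc hs3
  have hFA' : ∀ X : Finset (ZMod p × ZMod p), X ⊆ F → X ⊆ A := fun X hX => hX.trans hFA
  have hA'A : A' ⊆ A := Finset.sdiff_subset
  refine ⟨P₁ ∪ P₂ ∪ P₃, N₁ ∪ N₂ ∪ N₃, ?_, ?_, ha', ?_, ?_⟩
  · exact Finset.union_subset (Finset.union_subset (hP1.trans hA'A)
      (hFA' _ (Finset.subset_union_left.trans hF2)))
      (hFA' _ (Finset.subset_union_left.trans hF3))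
  · exact Finset.union_subset (Finset.union_subset (hN1.trans hA'A)
      (hFA' _ (Finset.subset_union_right.trans hF2)))
      (hFA' _ (Finset.subset_union_right.trans hF3))
  · rw [hb', hb, hc2, hc3, List.length_drop]
    omega
  · rw [hc']
    have : ((0, z₁) + (0, z₂) + (0, -z₁ - z₂) : ZMod p × ZMod p) = 0 := by
      refine Prod.ext ?_ ?_
      · simp
      · simp
    rw [this, add_zero]

end Pool.Agent.Lib.MP_8ac08c_co.SQ
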