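import Mathlib
import Pool.Agent.Lib.MP_8ac08c_co.SQ.Stm

/-!
# MP_8ac08c_co, project SQ, piece four: counting with characters
-/

set_option autoImplicit false

open Finset

namespace Pool.Agent.Lib.MP_8ac08c_co.SQ

private theorem four_ang_zero {p : ℕ} (b : ZMod p × ZMod p) : ang 0 b = 0 := by
  unfold ang
  have h : ((0 : ZMod p × ZMod p).1 * b.1 + (0 : ZMod p × ZMod p).2 * b.2 : ZMod p) = 0 := by
    simp
  rw [h, ZMod.val_zero]
  simp

theorem p_four (h1 : S_fca) (h2 : S_fcb) : S_four := by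
  intro p hp A k t hA hc
  have : NeZero p := ⟨hp.ne_zero⟩
  by_contra hno
  obtain ⟨T, hT⟩ : ∃ T : ZMod p × ZMod p → ℝ,
    T = fun c => ∑ B ∈ A.powersetCard k, ∏ b ∈ B, (2 * Real.cos (ang c b)) := ⟨_, rfl⟩
  obtain ⟨M, hM⟩ : ∃ M : ℝ, M = ((k + t).choose k : ℝ) * 2 ^ k := ⟨_, rfl⟩
  have hMpos : 0 < M := by
    rw [hM]
    have : 0 < (k + t).choose k := Nat.choose_pos (Nat.le_add_right _ _)
    positivity
  have hcard : #(A.powersetCard k) = (k + t).choose k := by
    rw [card_powersetCard, hA]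
  have hp2 : (0 : ℝ) < (p : ℝ) ^ 2 := by
    have := hp.pos
    positivity
  have hsum : ∑ c, T c = 0 := by
    rw [hT]
    simp only
    rw [sum_comm]
    apply sum_eq_zero
    intro B hB
    rw [mem_powersetCard] at hB
    rw [h1 p hp B]
    have h3 : (B.powerset.filter fun P => ∑ x ∈ P, x = ∑ x ∈ B \ P, x) = ∅ := by
      rw [filter_eq_empty_iff]
      intro P hP he
      rw [mem_powerset] at hP
      apply hno
      refine ⟨P, B \ P, hP.trans hB.1, sdiff_subset.trans hB.1, disjoint_sdiff, ?_, he⟩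
      rw [← hB.2, add_comm]
      exact card_sdiff_add_card_eq_card hP
    rw [h3]
    simp
  have hT0 : T 0 = M := by
    rw [hT, hM]
    simp only
    have h3 : ∀ B ∈ A.powersetCard k, ∏ b ∈ B, (2 * Real.cos (ang 0 b)) = (2 : ℝ) ^ k := by
      intro B hB
      rw [mem_powersetCard] at hB
      have h4 : ∀ b ∈ B, 2 * Real.cos (ang 0 b) = (2 : ℝ) := by
        intro b _
        rw [four_ang_zero, Real.cos_zero, mul_one]
      rw [prod_congr rfl h4, prod_const, hB.2]
    rw [sum_congr rfl h3, sum_const, hcard, nsmul_eq_mul]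
  have hTc : ∀ c : ZMod p × ZMod p, c ≠ 0 → |T c| ≤ M / (p : ℝ) ^ 2 := by
    intro c hc0
    have hS := hc c hc0
    have hexp : Real.exp (-(∑ a ∈ A, Real.sin (ang c a) ^ 2 - t) / 2) ≤ 1 / (p : ℝ) ^ 2 := by
      have h3 : Real.exp (-(2 * Real.log p)) = 1 / (p : ℝ) ^ 2 := by
        have h4 : 2 * Real.log p = Real.log ((p : ℝ) ^ 2) := by
          rw [Real.log_pow]
          norm_num
        rw [h4, Real.exp_neg, Real.exp_log hp2, one_div]
      rw [← h3]
      apply Real.exp_le_exp.2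
      linarith
    have h3 : ∀ B ∈ A.powersetCard k, |∏ b ∈ B, (2 * Real.cos (ang c b))| ≤
        2 ^ k * (1 / (p : ℝ) ^ 2) := by
      intro B hB
      rw [mem_powersetCard] at hB
      have h4 := h2 (ZMod p × ZMod p) (fun a => ang c a) A B hB.1
      rw [hA, hB.2] at h4
      have h5 : (((k + t : ℕ) : ℝ) - (k : ℝ)) = t := by
        push_cast
        ring
      rw [h5] at h4
      rw [abs_prod]
      have h6 : ∀ b ∈ B, |2 * Real.cos (ang c b)| = 2 * |Real.cos (ang c b)| := by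
        intro b _
        rw [abs_mul, abs_of_pos (by norm_num : (0 : ℝ) < 2)]
      rw [prod_congr rfl h6, prod_mul_distrib, prod_const, hB.2]
      exact mul_le_mul_of_nonneg_left (h4.trans hexp) (by positivity)
    have h4 : |T c| ≤ ∑ B ∈ A.powersetCard k, 2 ^ k * (1 / (p : ℝ) ^ 2) := by
      rw [hT]
      exact (abs_sum_le_sum_abs _ _).trans (sum_le_sum h3)
    rw [sum_const, hcard, nsmul_eq_mul] at h4
    have h5 : ((k + t).choose k : ℝ) * (2 ^ k * (1 / (p : ℝ) ^ 2)) = M / (p : ℝ) ^ 2 := by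
      rw [hM]
      ring
    rw [h5] at h4
    exact h4
  have hsplit : T 0 + ∑ c ∈ univ.erase (0 : ZMod p × ZMod p), T c = 0 := by
    rw [add_sum_erase _ _ (mem_univ _)]
    exact hsum
  have hrest : |∑ c ∈ univ.erase (0 : ZMod p × ZMod p), T c| ≤
      ((p : ℝ) ^ 2 - 1) * (M / (p : ℝ) ^ 2) := by
    refine (abs_sum_le_sum_abs _ _).trans ?_
    refine (sum_le_sum fun c hc' => hTc c (ne_of_mem_erase hc')).trans ?_
    rw [sum_const, card_erase_of_mem (mem_univ _), card_univ, Fintype.card_prod, ZMod.card,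
      nsmul_eq_mul]
    have h3 : 1 ≤ p * p := Nat.mul_pos hp.pos hp.pos
    rw [Nat.cast_sub h3]
    push_cast
    have h4 : (p : ℝ) * p - 1 = (p : ℝ) ^ 2 - 1 := by ring
    rw [h4]
  have h3 : ((p : ℝ) ^ 2 - 1) * (M / (p : ℝ) ^ 2) = M - M / (p : ℝ) ^ 2 := by
    have h6 : (p : ℝ) ^ 2 * (M / (p : ℝ) ^ 2) = M := mul_div_cancel₀ M hp2.ne'
    rw [sub_mul, one_mul, h6]
  rw [h3] at hrest
  have h4 : 0 < M / (p : ℝ) ^ 2 := div_pos hMpos hp2
  rw [hT0] at hsplit
  have h5 := abs_le.1 hrest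
  linarith [h5.1]

end Pool.Agent.Lib.MP_8ac08c_co.SQ
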