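import Pool.Agent.Lib.MP_8ac08c_co.SQ.Stm

set_option autoImplicit false

open Finset

namespace Pool.Agent.Lib.MP_8ac08c_co.SQ

open scoped Pointwise

private theorem gr1_EO_two {p : ℕ} [NeZero p] (s : Finset (ZMod p × ZMod p)) :
    EO 2 s = EO 0 s := rfl

/-- Cauchy-Davenport for a set with the two elements `x`, `-x` -/
private theorem gr1_cd {p : ℕ} (hp : p.Prime) (hp2 : p ≠ 2) (S T : Finset (ZMod p))
    (hS : S.Nonempty) (x : ZMod p) (hx : x ≠ 0) (h : ∀ z ∈ S, z + x ∈ T ∧ z - x ∈ T) :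
    min p (#S + 1) ≤ #T := by
  have hxx : x ≠ -x := by
    intro hx'
    have h2 : x + x = 0 := by
      nth_rewrite 2 [hx']
      exact add_neg_cancel x
    have := Fact.mk hp
    have h3 : (2 : ZMod p) * x = 0 := by rw [two_mul, h2]
    rcases mul_eq_zero.1 h3 with h4 | h4
    · have h5 : ((2 : ℕ) : ZMod p) = 0 := by exact_mod_cast h4
      rw [ZMod.natCast_eq_zero_iff] at h5
      exact hp2 ((Nat.prime_dvd_prime_iff_eq hp Nat.prime_two).1 h5)
    · exact hx h4
  have h1 := ZMod.cauchy_davenport hp hS (insert_nonempty x {-x} : ({x, -x} : Finset _).Nonempty)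
  rw [card_pair hxx] at h1
  have h2 : S + {x, -x} ⊆ T := by
    intro z hz
    obtain ⟨u, hu, v, hv, rfl⟩ := mem_add.1 hz
    rcases mem_insert.1 hv with rfl | hv
    · exact (h u hu).1
    · rw [mem_singleton.1 hv, ← sub_eq_add_neg]
      exact (h u hu).2
  exact h1.trans (card_le_card h2)

theorem p_gr1 (h1 : S_eo) : S_gr1 := by
  intro p hp hp2 _ s a ha hno
  obtain ⟨mono, add1, -, zero0, -⟩ := h1 p s 0
  obtain ⟨mono1, add2, -, -, -⟩ := h1 p s 1
  obtain ⟨-, -, -, zero0', hodd⟩ := h1 p (insert a s) 0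
  have hx : a.1 ≠ 0 := by
    intro hx
    have h2 := (add1 a ha 0 zero0).1
    rw [hx, add_zero] at h2
    exact hno (hodd.1 h2)
  have hO' : (0 : ZMod p) ∉ EO 1 (insert a s) := fun h => hno (hodd.1 h)
  have hcO' : #(EO 1 (insert a s)) < p := by
    have h2 : #(EO 1 (insert a s)) < #(univ : Finset (ZMod p)) :=
      card_lt_card (ssubset_univ_iff.2 fun h => hO' (h ▸ mem_univ _))
    rwa [card_univ, ZMod.card] at h2
  have hE := gr1_cd hp hp2 (EO 0 s) (EO 1 (insert a s)) ⟨0, zero0⟩ a.1 hx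
    (fun z hz => add1 a ha z hz)
  have hE1 : #(EO 0 s) + 1 ≤ #(EO 1 (insert a s)) := by
    rcases min_le_iff.1 hE with h | h
    · omega
    · exact h
  rcases (EO 1 s).eq_empty_or_nonempty with hO | hO
  · rw [hO, card_empty]
    have h3 : 1 ≤ #(EO 0 (insert a s)) := card_pos.2 ⟨0, zero0'⟩
    omega
  · have h2 := gr1_cd hp hp2 (EO 1 s) (EO 0 (insert a s)) hO a.1 hx
      (fun z hz => by
        rw [← gr1_EO_two]
        exact add2 a ha z hz)
    have h3 : #(EO 1 s) ≤ #(EO 1 (insert a s)) :=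
      card_le_card (mono1 _ (subset_insert a s))
    have h4 : #(EO 1 s) + 1 ≤ #(EO 0 (insert a s)) := by
      rcases min_le_iff.1 h2 with h | h
      · omega
      · exact h
    omega

end Pool.Agent.Lib.MP_8ac08c_co.SQ
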