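import Pool.Agent.Lib.MP_8ac08c_co.SQ.Stm

/-!
# MP_8ac08c_co, project SQ, piece gr2: growth for two elements of different classes
-/

set_option autoImplicit false

open Finset
open scoped Pointwise

namespace Pool.Agent.Lib.MP_8ac08c_co.SQ

private lemma gr2_two {p : ℕ} [NeZero p] (hp : p.Prime) (h2 : p ≠ 2) {x : ZMod p} (h : x + x = 0) :
    x = 0 := by
  have : Fact p.Prime := ⟨hp⟩
  have h3 : (2 : ZMod p) ≠ 0 := by
    intro h0
    have h4 : ((2 : ℕ) : ZMod p) = 0 := by exact_mod_cast h0
    rw [ZMod.natCast_eq_zero_iff] at h4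
    exact h2 ((Nat.prime_dvd_prime_iff_eq hp Nat.prime_two).1 h4)
  rw [← two_mul] at h
  exact (mul_eq_zero.1 h).resolve_left h3

private lemma gr2_card {p : ℕ} [NeZero p] (hp : p.Prime) (h2 : p ≠ 2) {x y : ZMod p} (hx : x ≠ 0)
    (hy : y ≠ 0) (h1 : x ≠ y) (h3 : x ≠ -y) :
    #({0, x + y, x - y, -x + y, -x - y} : Finset (ZMod p)) = 5 := by
  have e1 : x + y ≠ 0 := fun h => h3 (eq_neg_of_add_eq_zero_left h)
  have e2 : x - y ≠ 0 := sub_ne_zero.2 h1
  have e3 : -x + y ≠ 0 := fun h => h1 (by linear_combination -h)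
  have e4 : -x - y ≠ 0 := fun h => e1 (by linear_combination -h)
  have e5 : x + y ≠ x - y := fun h => hy (gr2_two hp h2 (by linear_combination h))
  have e6 : x + y ≠ -x + y := fun h => hx (gr2_two hp h2 (by linear_combination h))
  have e7 : x + y ≠ -x - y := fun h => e1 (gr2_two hp h2 (by linear_combination h))
  have e8 : x - y ≠ -x + y := fun h => e2 (gr2_two hp h2 (by linear_combination h))
  have e9 : x - y ≠ -x - y := fun h => hx (gr2_two hp h2 (by linear_combination h))
  have e10 : -x + y ≠ -x - y := fun h => hy (gr2_two hp h2 (by linear_combination h))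
  rw [card_insert_of_notMem, card_insert_of_notMem, card_insert_of_notMem, card_insert_of_notMem,
    card_singleton]
  · simpa using e10
  · simp only [mem_insert, mem_singleton, not_or]
    exact ⟨e8, e9⟩
  · simp only [mem_insert, mem_singleton, not_or]
    exact ⟨e5, e6, e7⟩
  · simp only [mem_insert, mem_singleton, not_or]
    exact ⟨e1.symm, e2.symm, e3.symm, e4.symm⟩

private lemma gr2_card4 {p : ℕ} [NeZero p] (hp : p.Prime) (h2 : p ≠ 2) {x y : ZMod p} (hx : x ≠ 0)
    (hy : y ≠ 0) (h1 : x ≠ y) (h3 : x ≠ -y) :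
    #({x, -x, y, -y} : Finset (ZMod p)) = 4 := by
  have e1 : x ≠ -x := fun h => hx (gr2_two hp h2 (by linear_combination h))
  have e2 : y ≠ -y := fun h => hy (gr2_two hp h2 (by linear_combination h))
  have e3 : -x ≠ y := fun h => h3 (by linear_combination -h)
  have e4 : -x ≠ -y := fun h => h1 (by linear_combination -h)
  rw [card_insert_of_notMem, card_insert_of_notMem, card_insert_of_notMem, card_singleton]
  · simpa using e2
  · simp only [mem_insert, mem_singleton, not_or]
    exact ⟨e3, e4⟩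
  · simp only [mem_insert, mem_singleton, not_or]
    exact ⟨e1, h1, h3⟩

private lemma gr2_lt {p : ℕ} [NeZero p] {S : Finset (ZMod p)} {z : ZMod p} (h : z ∉ S) : #S < p := by
  have h1 : S ⊂ univ := by
    rw [ssubset_univ_iff]
    intro h0
    exact h (h0 ▸ mem_univ z)
  have h2 := card_lt_card h1
  rwa [card_univ, ZMod.card] at h2

theorem p_gr2 (h1 : S_eo) : S_gr2 := by
  intro p hp hp2 _ s a b c ha hb hab hc hne hne' hno
  obtain ⟨m1, s1, t1, z1, o1⟩ := h1 p s 0
  obtain ⟨m2, s2, t2, -, -⟩ := h1 p s 1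
  obtain ⟨-, sc, -, -, -⟩ := h1 p (insert a (insert b s)) 0
  obtain ⟨mc, -, -, -, -⟩ := h1 p (insert a (insert b s)) 1
  obtain ⟨ma, -, -, -, -⟩ := h1 p (insert a s) 1
  obtain ⟨mb, -, -, -, -⟩ := h1 p (insert b s) 1
  obtain ⟨-, -, -, -, ow⟩ := h1 p (insert c (insert a (insert b s))) 0
  have hno' : (0 : ZMod p) ∉ EO 1 (insert c (insert a (insert b s))) := fun h => hno (ow.1 h)
  have hsub : s ⊆ insert a (insert b s) := fun z hz => mem_insert_of_mem (mem_insert_of_mem hz)
  have hsuba : insert a s ⊆ insert a (insert b s) := by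
    intro z hz
    rw [mem_insert] at hz ⊢
    exact hz.imp id fun h => mem_insert_of_mem h
  have hsubb : insert b s ⊆ insert a (insert b s) := subset_insert _ _
  have hsubc : insert a (insert b s) ⊆ insert c (insert a (insert b s)) := subset_insert _ _
  have hno1 : (0 : ZMod p) ∉ EO 1 (insert a (insert b s)) := fun h => hno' (mc _ hsubc h)
  have hxa : a.1 ∈ EO 1 (insert a s) ∧ -a.1 ∈ EO 1 (insert a s) := by
    have h := s1 a ha 0 z1
    simpa only [zero_add, zero_sub] using h
  have hxb : b.1 ∈ EO 1 (insert b s) ∧ -b.1 ∈ EO 1 (insert b s) := by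
    have h := s1 b hb 0 z1
    simpa only [zero_add, zero_sub] using h
  have hx0 : a.1 ≠ 0 := by
    intro h
    have h2 := hxa.1
    rw [h] at h2
    exact hno1 (ma _ hsuba h2)
  have hy0 : b.1 ≠ 0 := by
    intro h
    have h2 := hxb.1
    rw [h] at h2
    exact hno1 (mb _ hsubb h2)
  have hT := gr2_card hp hp2 hx0 hy0 hne hne'
  set T : Finset (ZMod p) := {0, a.1 + b.1, a.1 - b.1, -a.1 + b.1, -a.1 - b.1} with hTd
  have hTne : T.Nonempty := ⟨0, by rw [hTd]; exact mem_insert_self _ _⟩
  have hsum : ∀ i : ℕ, (∀ s', s ⊆ s' → EO i s ⊆ EO i s') →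
      (∀ a ∉ s, ∀ b ∉ s, a ≠ b → ∀ z ∈ EO i s, z + a.1 + b.1 ∈ EO i (insert a (insert b s)) ∧
        z + a.1 - b.1 ∈ EO i (insert a (insert b s)) ∧ z - a.1 + b.1 ∈ EO i (insert a (insert b s)) ∧
        z - a.1 - b.1 ∈ EO i (insert a (insert b s))) →
      EO i s + T ⊆ EO i (insert a (insert b s)) := by
    intro i hm ht w hw
    obtain ⟨z, hz, u, hu, rfl⟩ := mem_add.1 hw
    obtain ⟨g1, g2, g3, g4⟩ := ht a ha b hb hab z hz
    rw [hTd] at hu
    simp only [mem_insert, mem_singleton] at hu
    rcases hu with rfl | rfl | rfl | rfl | rfl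
    · rw [add_zero]
      exact hm _ hsub hz
    · rw [← add_assoc]
      exact g1
    · rw [← add_sub_assoc]
      exact g2
    · rw [show z + (-a.1 + b.1) = z - a.1 + b.1 by ring]
      exact g3
    · rw [show z + (-a.1 - b.1) = z - a.1 - b.1 by ring]
      exact g4
  have hE : #(EO 0 s) + 4 ≤ #(EO 0 (insert a (insert b s))) := by
    have h3 := ZMod.cauchy_davenport hp (s := EO 0 s) (t := T) ⟨0, z1⟩ hTne
    have h4 := card_le_card (hsum 0 m1 t1)
    have h5 : -c.1 ∉ EO 0 (insert a (insert b s)) := by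
      intro h
      have h6 := (sc c hc _ h).1
      rw [neg_add_cancel] at h6
      exact hno' h6
    have h6 := gr2_lt h5
    rw [hT] at h3
    have h7 := h3.trans h4
    rcases le_total p (#(EO 0 s) + 5 - 1) with h8 | h8
    · rw [min_eq_left h8] at h7
      omega
    · rw [min_eq_right h8] at h7
      omega
  have hO : #(EO 1 s) + 4 ≤ #(EO 1 (insert a (insert b s))) := by
    have h6 := gr2_lt hno1
    rcases (EO 1 s).eq_empty_or_nonempty with h | h
    · rw [h, card_empty, zero_add, ← gr2_card4 hp hp2 hx0 hy0 hne hne']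
      refine card_le_card ?_
      intro w hw
      simp only [mem_insert, mem_singleton] at hw
      rcases hw with rfl | rfl | rfl | rfl
      · exact ma _ hsuba hxa.1
      · exact ma _ hsuba hxa.2
      · exact mb _ hsubb hxb.1
      · exact mb _ hsubb hxb.2
    · have h3 := ZMod.cauchy_davenport hp (s := EO 1 s) (t := T) h hTne
      have h4 := card_le_card (hsum 1 m2 t2)
      rw [hT] at h3
      have h7 := h3.trans h4
      rcases le_total p (#(EO 1 s) + 5 - 1) with h8 | h8
      · rw [min_eq_left h8] at h7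
        omega
      · rw [min_eq_right h8] at h7
        omega
  omega

end Pool.Agent.Lib.MP_8ac08c_co.SQ
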