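import Pool.Agent.Lib.MP_8ac08c_co.SQ.Stm

/-!
# MP_8ac08c_co, project SQ, piece grow: growth, assembled
-/

set_option autoImplicit false

open Finset

namespace Pool.Agent.Lib.MP_8ac08c_co.SQ

private lemma grow_mono {p : ℕ} {s t : Finset (ZMod p × ZMod p)} (h : s ⊆ t) (hs : OddSol s) :
    OddSol t := by
  obtain ⟨P, N, h1, h2, h3, h4, h5⟩ := hs
  exact ⟨P, N, h1.trans h, h2.trans h, h3, h4, h5⟩

private lemma grow_flat {G : Type} (x : G × G) (l : List (G × G)) :
    flat (x :: l) = x.1 :: x.2 :: flat l := by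
  unfold flat
  rw [List.flatMap_cons]
  rfl

private lemma grow_len {G : Type} (l : List (G × G)) : (flat l).length = 2 * l.length := by
  induction l with
  | nil => rfl
  | cons x l ih =>
    rw [grow_flat, List.length_cons, List.length_cons, List.length_cons, ih]
    omega

private lemma grow_card {p : ℕ} (l : List ((ZMod p × ZMod p) × (ZMod p × ZMod p)))
    (h : (flat l).Nodup) : #(flat l).toFinset = 2 * l.length := by
  rw [List.toFinset_card_of_nodup h, grow_len]

private lemma grow_pairs (h2 : S_gr2) (h3 : S_eo) (p : ℕ) (hp : p.Prime) (hp2 : p ≠ 2) [NeZero p]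
    (A : Finset (ZMod p × ZMod p)) (hno : ¬ OddSol A)
    (l : List ((ZMod p × ZMod p) × (ZMod p × ZMod p))) :
    (flat l).Nodup → (∀ z ∈ flat l, z ∈ A) →
    (∀ x ∈ l, x.1.1 ≠ x.2.1 ∧ x.1.1 ≠ - x.2.1) → 2 * l.length + 1 ≤ #A →
    1 + 8 * l.length ≤ #(EO 0 (flat l).toFinset) + #(EO 1 (flat l).toFinset) := by
  induction l with
  | nil =>
    intro _ _ _ _
    obtain ⟨-, -, -, z1, -⟩ := h3 p (flat ([] : List ((ZMod p × ZMod p) × (ZMod p × ZMod p)))).toFinset 0
    have := card_pos.2 ⟨0, z1⟩
    simp only [List.length_nil]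
    omega
  | cons x l ih =>
    intro hnd hmem hcl hcard
    have hc0 := grow_card (x :: l) hnd
    rw [grow_flat] at hnd hmem hc0 ⊢
    rw [List.nodup_cons, List.nodup_cons] at hnd
    obtain ⟨hn1, hn2, hnd'⟩ := hnd
    rw [List.mem_cons, not_or] at hn1
    rw [List.length_cons] at hcard hc0
    have hih := ih hnd' (fun z hz => hmem z (List.mem_cons_of_mem _ (List.mem_cons_of_mem _ hz)))
      (fun y hy => hcl y (List.mem_cons_of_mem _ hy)) (by omega)
    rw [List.toFinset_cons, List.toFinset_cons] at hc0 ⊢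
    have hsub : insert x.1 (insert x.2 (flat l).toFinset) ⊆ A := by
      intro z hz
      rw [mem_insert, mem_insert, List.mem_toFinset] at hz
      rcases hz with rfl | rfl | hz
      · exact hmem _ List.mem_cons_self
      · exact hmem _ (List.mem_cons_of_mem _ List.mem_cons_self)
      · exact hmem z (List.mem_cons_of_mem _ (List.mem_cons_of_mem _ hz))
    obtain ⟨c, hcA, hc⟩ := exists_mem_notMem_of_card_lt_card
      (s := insert x.1 (insert x.2 (flat l).toFinset)) (t := A) (by omega)
    have h4 := h2 p hp hp2 (flat l).toFinset x.1 x.2 c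
      (fun h => hn1.2 (List.mem_toFinset.1 h)) (fun h => hn2 (List.mem_toFinset.1 h)) hn1.1 hc
      (hcl x List.mem_cons_self).1 (hcl x List.mem_cons_self).2
      (fun h => hno (grow_mono (insert_subset hcA hsub) h))
    rw [List.length_cons]
    omega

private lemma grow_rest (h1 : S_gr1) (p : ℕ) (hp : p.Prime) (hp2 : p ≠ 2) [NeZero p]
    (A F : Finset (ZMod p × ZMod p)) (hno : ¬ OddSol A) (hF : F ⊆ A)
    (D : Finset (ZMod p × ZMod p)) : D ⊆ A → Disjoint D F →
    #(EO 0 F) + #(EO 1 F) + 2 * #D ≤ #(EO 0 (D ∪ F)) + #(EO 1 (D ∪ F)) := by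
  induction D using Finset.induction_on with
  | empty =>
    intro _ _
    rw [empty_union, card_empty]
    omega
  | insert a D haD ih =>
    intro hD hdis
    rw [disjoint_insert_left] at hdis
    have hD' : D ⊆ A := fun z hz => hD (mem_insert_of_mem hz)
    have h4 := ih hD' hdis.2
    have h5 := h1 p hp hp2 (D ∪ F) a (by
      rw [mem_union, not_or]
      exact ⟨haD, hdis.1⟩)
      (fun h => hno (grow_mono (insert_subset (hD (mem_insert_self _ _)) (union_subset hD' hF)) h))
    rw [insert_union, card_insert_of_notMem haD]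
    omega

theorem p_grow (h1 : S_gr1) (h2 : S_gr2) (h3 : S_eo) : S_grow := by
  intro p hp hp2 A l hnd hmem hcl hcard hno
  have : NeZero p := ⟨hp.ne_zero⟩
  have h4 := grow_pairs h2 h3 p hp hp2 A hno l hnd hmem hcl hcard
  have hF : (flat l).toFinset ⊆ A := fun z hz => hmem z (List.mem_toFinset.1 hz)
  have h5 := grow_rest h1 p hp hp2 A (flat l).toFinset hno hF (A \ (flat l).toFinset)
    sdiff_subset sdiff_disjoint
  rw [sdiff_union_of_subset hF] at h5
  have h6 := card_sdiff_add_card_eq_card hF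
  rw [grow_card l hnd] at h6
  obtain ⟨-, -, -, -, o1⟩ := h3 p A 0
  have h7 : #(EO 0 A) ≤ p := by
    have := card_le_univ (EO 0 A)
    rwa [ZMod.card] at this
  have h8 : #(EO 1 A) < p := by
    have h9 : EO 1 A ⊂ univ := by
      rw [ssubset_univ_iff]
      intro h0
      exact hno (o1.1 (h0 ▸ mem_univ 0))
    have h10 := card_lt_card h9
    rwa [card_univ, ZMod.card] at h10
  omega

end Pool.Agent.Lib.MP_8ac08c_co.SQ
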