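import Pool.Agent.Lib.MP_8ac08c_co.SQ.Stm

/-!
# MP_8ac08c_co, project SQ: a group of 8 pairs
-/

set_option autoImplicit false

open Finset

namespace Pool.Agent.Lib.MP_8ac08c_co.SQ

private theorem grp_step (h1 : S_stp) (p : ℕ) (hp : p.Prime) (h2 : p ≠ 2)
    (Y : Finset (ZMod p × ZMod p)) (hY : 16384 * #(Y.image Prod.fst) + 16 ≤ #Y) :
    ∀ j : ℕ, j ≤ 8 → ∃ l, PairList Y l ∧ l.length = j ∧ #(sg l) = 2 ^ j := by
  intro j
  induction j with
  | zero =>
    intro _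
    refine ⟨[], ⟨List.nodup_nil, fun z hz => ?_, fun x hx => ?_⟩, rfl, ?_⟩
    · exact absurd hz List.not_mem_nil
    · exact absurd hx List.not_mem_nil
    · rw [pow_zero]
      exact Finset.card_singleton _
  | succ j ih =>
    intro hj
    obtain ⟨l, hl, hlen, hsg⟩ := ih (by omega)
    have h4 : 4 ^ j ≤ 16384 := by
      calc 4 ^ j ≤ 4 ^ 7 := Nat.pow_le_pow_right (by norm_num) (by omega)
        _ = 16384 := by norm_num
    have h5 : 4 ^ j * #(Y.image Prod.fst) ≤ 16384 * #(Y.image Prod.fst) :=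
      Nat.mul_le_mul_right _ h4
    obtain ⟨x, hx, hx2⟩ := h1 p hp h2 Y l hl (by rw [hsg, hlen]) (by rw [hlen]; omega)
    refine ⟨x :: l, hx, ?_, ?_⟩
    · rw [List.length_cons, hlen]
    · rw [hx2, hlen]

theorem p_grp (h1 : S_stp) : S_grp := by
  intro p hp h2 Y hY
  obtain ⟨l, hl, hlen, hsg⟩ := grp_step h1 p hp h2 Y hY 8 le_rfl
  exact ⟨l, hl, hlen, by rw [hsg]; norm_num⟩

end Pool.Agent.Lib.MP_8ac08c_co.SQ
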