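import Pool.Agent.Lib.MP_8ac08c_co.SQ.Stm

/-!
# MP_8ac08c_co, project SQ: many groups of 8 pairs
-/

set_option autoImplicit false

open Finset
open scoped Pointwise

namespace Pool.Agent.Lib.MP_8ac08c_co.SQ

theorem p_grps (h1 : S_grp) (h2 : S_app) : S_grps := by
  intro p hp hp2 Y r
  induction r with
  | zero =>
    intro _
    refine ⟨[], ⟨List.nodup_nil, fun z hz => ?_, fun x hx => ?_⟩, rfl, ?_⟩
    · exact absurd hz List.not_mem_nil
    · exact absurd hx List.not_mem_nil
    · have h3 : #(sg ([] : List ((ZMod p × ZMod p) × (ZMod p × ZMod p)))) = 1 :=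
        Finset.card_singleton _
      rw [h3]
      exact min_le_right _ _
  | succ r ih =>
    intro hY
    obtain ⟨l, hl, hlen, hsg⟩ := ih (by omega)
    -- the rest
    have hsub : (flat l).toFinset ⊆ Y := fun z hz => hl.mem z (List.mem_toFinset.mp hz)
    have hcard : #((flat l).toFinset) = 16 * r := by
      rw [List.toFinset_card_of_nodup hl.nodup, (h2 p l l).2.2.2.2, hlen]
      omega
    have hY' : #(Y \ (flat l).toFinset) + 16 * r = #Y := by
      rw [← hcard]
      exact Finset.card_sdiff_add_card_eq_card hsub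
    have him : #((Y \ (flat l).toFinset).image Prod.fst) ≤ #(Y.image Prod.fst) :=
      Finset.card_le_card (Finset.image_subset_image Finset.sdiff_subset)
    obtain ⟨l', hl', hlen', hsg'⟩ := h1 p hp hp2 (Y \ (flat l).toFinset) (by omega)
    refine ⟨l' ++ l, (h2 p l l').2.2.1 Y hl' hl, ?_, ?_⟩
    · rw [List.length_append, hlen, hlen']
      omega
    · have h3 : sg (l' ++ l) = sg l' + sg l := by
        rw [(h2 p l' l).1]
        rfl
      have h4 := ZMod.cauchy_davenport hp (h2 p l' l).2.1 (h2 p l l).2.1
      rw [h3]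
      omega

end Pool.Agent.Lib.MP_8ac08c_co.SQ
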