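import Mathlib
import Pool.Agent.Lib.MP_8ac08c_co.SQ.Stm

/-!
# MP_8ac08c_co, project SQ, piece jv: elementary properties of `J`
-/

set_option autoImplicit false

open Finset

namespace Pool.Agent.Lib.MP_8ac08c_co.SQ

theorem p_jv : S_jv := by
  intro p hp hp2 v
  have hodd : p % 2 = 1 := Nat.odd_iff.1 (hp.odd_of_ne_two hp2)
  have : NeZero p := ⟨hp.ne_zero⟩
  have hlt := ZMod.val_lt v
  have hval : ((v.val : ℕ) : ZMod p) = v := ZMod.natCast_zmod_val v
  have hcast : ((p - v.val : ℕ) : ZMod p) = -v := by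
    rw [Nat.cast_sub hlt.le, hval, ZMod.natCast_self, zero_sub]
  unfold J
  by_cases h : v.val % 2 = 1
  · simp only [h, if_true]
    refine ⟨Nat.odd_iff.2 h, hlt.le, hval, fun h1 _ => ?_⟩
    by_contra hcon
    have h2 : v.val = 1 := by omega
    rw [h2, Nat.cast_one] at hval
    exact h1 hval.symm
  · simp only [h, if_false]
    refine ⟨Nat.odd_iff.2 (by omega), by omega, hcast, fun _ h1 => ?_⟩
    by_contra hcon
    have h2 : p - v.val = 1 := by omega
    rw [h2, Nat.cast_one] at hcast
    exact h1 (by rw [hcast, neg_neg])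

end Pool.Agent.Lib.MP_8ac08c_co.SQ
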