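import Mathlib
import Pool.Agent.Lib.MP_8ac08c_co.SQ.Stm
import Pool.Agent.Lib.MP_8ac08c_co.SQ.P.jv

/-!
# MP_8ac08c_co, project SQ, piece jsm: the sum of the `J` is small
-/

set_option autoImplicit false

open Finset

namespace Pool.Agent.Lib.MP_8ac08c_co.SQ

/-- the signed construction: `W'` and `U'` with `T + ε #U' = 0` mod `p` -/
theorem jsm_sol (p : ℕ) (hp : p.Prime) (hp2 : p ≠ 2) (U W : Finset (ZMod p × ZMod p))
    (hUW : Disjoint U W) (ε : ZMod p) (hε : ε = 1 ∨ ε = -1)
    (hU : ∀ a ∈ U, a.1 = 1 ∨ a.1 = -1)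
    (h0 : ((∑ a ∈ W, J a.1 : ℕ) : ZMod p) + ε * (#U : ZMod p) = 0)
    (hodd : Odd (#W + #U)) : OddSol (U ∪ W) := by
  refine ⟨W.filter (fun a => a.1.val % 2 = 1) ∪ U.filter (fun a => a.1 = ε),
    W.filter (fun a => ¬ a.1.val % 2 = 1) ∪ U.filter (fun a => ¬ a.1 = ε), ?_, ?_, ?_, ?_, ?_⟩
  · exact union_subset ((filter_subset _ _).trans subset_union_right)
      ((filter_subset _ _).trans subset_union_left)
  · exact union_subset ((filter_subset _ _).trans subset_union_right)
      ((filter_subset _ _).trans subset_union_left)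
  · rw [disjoint_union_left, disjoint_union_right, disjoint_union_right]
    refine ⟨⟨disjoint_filter_filter_not _ _ _, ?_⟩, ?_, disjoint_filter_filter_not _ _ _⟩
    · exact disjoint_of_subset_left (filter_subset _ _)
        (disjoint_of_subset_right (filter_subset _ _) hUW.symm)
    · exact disjoint_of_subset_left (filter_subset _ _)
        (disjoint_of_subset_right (filter_subset _ _) hUW)
  · rw [card_union_of_disjoint, card_union_of_disjoint]
    · have e1 := card_filter_add_card_filter_not (s := W) (fun a => a.1.val % 2 = 1)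
      have e2 := card_filter_add_card_filter_not (s := U) (fun a => a.1 = ε)
      rw [show #(W.filter (fun a => a.1.val % 2 = 1)) + #(U.filter (fun a => a.1 = ε))
        + (#(W.filter (fun a => ¬ a.1.val % 2 = 1)) + #(U.filter (fun a => ¬ a.1 = ε)))
        = #W + #U by omega]
      exact hodd
    · exact disjoint_of_subset_left (filter_subset _ _)
        (disjoint_of_subset_right (filter_subset _ _) hUW.symm)
    · exact disjoint_of_subset_left (filter_subset _ _)
        (disjoint_of_subset_right (filter_subset _ _) hUW.symm)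
  · rw [sum_union, sum_union]
    · have e1 : ((∑ a ∈ W, J a.1 : ℕ) : ZMod p)
          = ∑ a ∈ W.filter (fun a => a.1.val % 2 = 1), a.1
            - ∑ a ∈ W.filter (fun a => ¬ a.1.val % 2 = 1), a.1 := by
        rw [Nat.cast_sum, ← sum_filter_add_sum_filter_not W (fun a => a.1.val % 2 = 1),
          sub_eq_add_neg, ← sum_neg_distrib]
        congr 1
        · refine sum_congr rfl fun a ha => ?_
          rw [(p_jv p hp hp2 a.1).2.2.1, if_pos (mem_filter.1 ha).2]
        · refine sum_congr rfl fun a ha => ?_
          rw [(p_jv p hp hp2 a.1).2.2.1, if_neg (mem_filter.1 ha).2]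
      have e2 : ε * (#U : ZMod p) = ∑ a ∈ U.filter (fun a => a.1 = ε), a.1
          - ∑ a ∈ U.filter (fun a => ¬ a.1 = ε), a.1 := by
        have : ε * (#U : ZMod p) = ∑ a ∈ U, ε := by
          rw [sum_const, nsmul_eq_mul, mul_comm]
        rw [this, ← sum_filter_add_sum_filter_not U (fun a => a.1 = ε), sub_eq_add_neg,
          ← sum_neg_distrib]
        congr 1
        · refine sum_congr rfl fun a ha => ?_
          exact (mem_filter.1 ha).2.symm
        · refine sum_congr rfl fun a ha => ?_
          rw [mem_filter] at ha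
          rcases hε with rfl | rfl <;> rcases hU a ha.1 with h | h
          · exact absurd h ha.2
          · rw [h, neg_neg]
          · rw [h]
          · exact absurd h ha.2
      rw [e1, e2] at h0
      rw [← sub_eq_zero, ← h0]
      ring
    · exact disjoint_of_subset_left (filter_subset _ _)
        (disjoint_of_subset_right (filter_subset _ _) hUW.symm)
    · exact disjoint_of_subset_left (filter_subset _ _)
        (disjoint_of_subset_right (filter_subset _ _) hUW.symm)

theorem p_jsm : S_jsm := by
  intro p hp hp2 U W hUW hU hcard hno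
  by_contra hcon
  rw [not_lt] at hcon
  have hpodd : p % 2 = 1 := Nat.odd_iff.1 (hp.odd_of_ne_two hp2)
  obtain ⟨W', hW', hmin⟩ := exists_min_image (W.powerset.filter fun X => p ≤ ∑ a ∈ X, J a.1 + #U)
    (fun X => #X) ⟨W, mem_filter.2 ⟨mem_powerset.2 subset_rfl, hcon⟩⟩
  rw [mem_filter, mem_powerset] at hW'
  obtain ⟨hWW, hW'⟩ := hW'
  obtain ⟨T, hT⟩ : ∃ T, T = ∑ a ∈ W', J a.1 := ⟨_, rfl⟩
  rw [← hT] at hW'
  have hTp : T ≤ p + #U := by
    rcases W'.eq_empty_or_nonempty with rfl | ⟨a, ha⟩
    · rw [hT]
      simp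
    · have h1 : ¬ p ≤ ∑ b ∈ W'.erase a, J b.1 + #U := by
        intro h
        have := hmin (W'.erase a) (mem_filter.2 ⟨mem_powerset.2 ((erase_subset _ _).trans hWW), h⟩)
        have h2 := card_erase_lt_of_mem ha
        omega
      have h2 := add_sum_erase W' (fun b => J b.1) ha
      have h3 := (p_jv p hp hp2 a.1).2.1
      omega
  have hpar : (∑ a ∈ W', J a.1) % 2 = #W' % 2 := by
    have : ∀ X : Finset (ZMod p × ZMod p), (∑ a ∈ X, J a.1) % 2 = #X % 2 := by
      intro X
      induction X using Finset.induction_on with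
      | empty => rfl
      | insert a X ha ih =>
        rw [sum_insert ha, card_insert_of_notMem ha]
        have := Nat.odd_iff.1 (p_jv p hp hp2 a.1).1
        omega
    exact this W'
  rw [← hT] at hpar
  by_cases hc : T ≤ p
  · obtain ⟨U', hU', hU'c⟩ := exists_subset_card_eq (s := U) (n := p - T) (by omega)
    refine hno ?_
    obtain ⟨P, N, hP, hN, hd, ho, hs⟩ := jsm_sol p hp hp2 U' W'
      (disjoint_of_subset_left hU' (disjoint_of_subset_right hWW hUW)) 1 (Or.inl rfl)
      (fun a ha => hU a (hU' ha)) (by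
        rw [← hT, hU'c, one_mul, ← Nat.cast_add, show T + (p - T) = p by omega, ZMod.natCast_self])
      (by
        rw [Nat.odd_iff, hU'c]
        omega)
    exact ⟨P, N, hP.trans (union_subset_union hU' hWW), hN.trans (union_subset_union hU' hWW),
      hd, ho, hs⟩
  · obtain ⟨U', hU', hU'c⟩ := exists_subset_card_eq (s := U) (n := T - p) (by omega)
    refine hno ?_
    obtain ⟨P, N, hP, hN, hd, ho, hs⟩ := jsm_sol p hp hp2 U' W'
      (disjoint_of_subset_left hU' (disjoint_of_subset_right hWW hUW)) (-1) (Or.inr rfl)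
      (fun a ha => hU a (hU' ha)) (by
        rw [← hT, hU'c, Nat.cast_sub (by omega), ZMod.natCast_self]
        ring)
      (by
        rw [Nat.odd_iff, hU'c]
        omega)
    exact ⟨P, N, hP.trans (union_subset_union hU' hWW), hN.trans (union_subset_union hU' hWW),
      hd, ho, hs⟩

end Pool.Agent.Lib.MP_8ac08c_co.SQ
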