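import Pool.Agent.Lib.MP_8ac08c_co.SQ.Stm

/-!
# Piece lin: change of coordinates
-/

set_option autoImplicit false

open Finset

namespace Pool.Agent.Lib.MP_8ac08c_co.SQ

theorem p_lin : S_lin := by
  constructor
  · intro p hp c hc
    have : Fact p.Prime := ⟨hp⟩
    by_cases h1 : c.1 = 0
    · have h2 : c.2 ≠ 0 := by
        intro h2
        exact hc (Prod.ext h1 h2)
      refine ⟨{ toFun := fun a => (c.2 * a.2, a.1)
                invFun := fun b => (b.2, c.2⁻¹ * b.1)
                left_inv := fun a => ?_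
                right_inv := fun b => ?_
                map_add' := fun a b => ?_ }, fun a => ?_⟩
      · change (a.1, c.2⁻¹ * (c.2 * a.2)) = a
        rw [inv_mul_cancel_left₀ h2]
      · change (c.2 * (c.2⁻¹ * b.1), b.2) = b
        rw [mul_inv_cancel_left₀ h2]
      · change (c.2 * (a.2 + b.2), a.1 + b.1) = (c.2 * a.2 + c.2 * b.2, a.1 + b.1)
        rw [mul_add]
      · change c.2 * a.2 = c.1 * a.1 + c.2 * a.2
        rw [h1, zero_mul, zero_add]
    · refine ⟨{ toFun := fun a => (c.1 * a.1 + c.2 * a.2, a.2)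
                invFun := fun b => (c.1⁻¹ * (b.1 - c.2 * b.2), b.2)
                left_inv := fun a => ?_
                right_inv := fun b => ?_
                map_add' := fun a b => ?_ }, fun a => rfl⟩
      · change (c.1⁻¹ * (c.1 * a.1 + c.2 * a.2 - c.2 * a.2), a.2) = a
        rw [add_sub_cancel_right, inv_mul_cancel_left₀ h1]
      · change (c.1 * (c.1⁻¹ * (b.1 - c.2 * b.2)) + c.2 * b.2, b.2) = b
        rw [mul_inv_cancel_left₀ h1, sub_add_cancel]
      · change (c.1 * (a.1 + b.1) + c.2 * (a.2 + b.2), a.2 + b.2) =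
          ((c.1 * a.1 + c.2 * a.2) + (c.1 * b.1 + c.2 * b.2), a.2 + b.2)
        congr 1
        ring
  · rintro p φ A k ⟨P, N, hP, hN, hd, hc, hs⟩
    have hsub : ∀ S : Finset (ZMod p × ZMod p), S ⊆ A.image φ → S.image φ.symm ⊆ A := by
      intro S hS x hx
      obtain ⟨y, hy, rfl⟩ := mem_image.1 hx
      obtain ⟨a, ha, rfl⟩ := mem_image.1 (hS hy)
      rwa [φ.symm_apply_apply]
    have hsum : ∀ S : Finset (ZMod p × ZMod p),
        ∑ x ∈ S.image φ.symm, x = φ.symm (∑ x ∈ S, x) := by
      intro S
      rw [sum_image (fun a _ b _ h => φ.symm.injective h), map_sum]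
    refine ⟨P.image φ.symm, N.image φ.symm, hsub P hP, hsub N hN, ?_, ?_, ?_⟩
    · exact (disjoint_image φ.symm.injective).2 hd
    · rw [card_image_of_injective _ φ.symm.injective, card_image_of_injective _ φ.symm.injective,
        hc]
    · rw [hsum, hsum, hs]

end Pool.Agent.Lib.MP_8ac08c_co.SQ
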