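import Mathlib
import Pool.Agent.Lib.MP_8ac08c_co.Basic
import Pool.Agent.Lib.MP_8ac08c_co.SQ.Stm

set_option autoImplicit false

open Finset

namespace Pool.Agent.Lib.MP_8ac08c_co.SQ

private theorem low_inj (p t : ℕ) (ht : 2 ^ t ≤ p) (I I' : Finset ℕ) (hI : ∀ i ∈ I, i < t)
    (hI' : ∀ i ∈ I', i < t)
    (h : (∑ i ∈ I, (2 : ZMod p) ^ i) = ∑ i ∈ I', (2 : ZMod p) ^ i) : I = I' := by
  have h1 : ∑ i ∈ I, 2 ^ i < 2 ^ t := Nat.geomSum_lt le_rfl hI
  have h2 : ∑ i ∈ I', 2 ^ i < 2 ^ t := Nat.geomSum_lt le_rfl hI'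
  have h3 : ((∑ i ∈ I, 2 ^ i : ℕ) : ZMod p) = ((∑ i ∈ I', 2 ^ i : ℕ) : ZMod p) := by
    push_cast
    exact h
  rw [ZMod.natCast_eq_natCast_iff', Nat.mod_eq_of_lt (by omega), Nat.mod_eq_of_lt (by omega)] at h3
  exact Finset.geomSum_injective le_rfl h3

/-- [SQ low] The lower bound. -/
theorem p_low : S_low := by
  classical
  intro p hp
  have : Fact p.Prime := ⟨hp⟩
  have hp2 := hp.two_le
  set t := Nat.log 2 p with ht
  have htp : 2 ^ t ≤ p := Nat.pow_log_le_self 2 (by omega)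
  let K : AddSubgroup (ZMod p × ZMod p) := AddSubgroup.prod ⊥ ⊤
  have hK : ∀ x : ZMod p × ZMod p, x ∈ K ↔ x.1 = 0 := by
    intro x
    simp [K, AddSubgroup.mem_prod]
  have hlow := lower K (κ := p) (by omega)
  -- the first part
  have h1 : p - 1 ≤ eta K p := by
    have hc : #((univ.erase (0 : ZMod p)).image fun y => ((0 : ZMod p), y)) = p - 1 := by
      rw [card_image_of_injective _ (fun a b h => (Prod.mk.inj h).2),
        card_erase_of_mem (mem_univ _), card_univ, ZMod.card]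
    rw [← hc]
    refine le_eta ?_ ?_
    · intro x hx
      obtain ⟨y, -, rfl⟩ := mem_image.1 hx
      exact (hK _).2 rfl
    · intro B hB hBc
      have := card_le_card hB
      rw [hc, hBc] at this
      omega
  -- the second part
  have hcinj : Set.InjOn (fun i : ℕ => ((2 : ZMod p) ^ i, (0 : ZMod p))) (range t : Finset ℕ) := by
    intro a ha b hb hab
    have h2 := low_inj p t htp {a} {b} (by simpa using ha) (by simpa using hb)
      (by simpa using (Prod.mk.inj hab).1)
    simpa using h2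
  have h2 : t ≤ dis ((ZMod p × ZMod p) ⧸ K) := by
    have hc : #((range t).image fun i : ℕ => ((2 : ZMod p) ^ i, (0 : ZMod p))) = t := by
      rw [card_image_of_injOn hcinj, card_range]
    rw [← hc]
    refine le_dis_of_lift ?_
    intro P N hP hN hd hs
    have hrep : ∀ X ⊆ (range t).image fun i : ℕ => ((2 : ZMod p) ^ i, (0 : ZMod p)),
        ∃ I ⊆ range t, X = I.image fun i : ℕ => ((2 : ZMod p) ^ i, (0 : ZMod p)) := by
      intro X hX
      obtain ⟨I, hI, hIX⟩ := subset_image_iff.1 hX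
      exact ⟨I, by simpa using hI, hIX.symm⟩
    obtain ⟨I, hI, rfl⟩ := hrep P hP
    obtain ⟨I', hI', rfl⟩ := hrep N hN
    rw [sum_image (fun a ha b hb h => hcinj (hI ha) (hI hb) h),
      sum_image (fun a ha b hb h => hcinj (hI' ha) (hI' hb) h), hK, Prod.fst_sub, Prod.fst_sum,
      Prod.fst_sum, sub_eq_zero] at hs
    have h3 := low_inj p t htp I I' (fun i hi => mem_range.1 (hI hi))
      (fun i hi => mem_range.1 (hI' hi)) hs
    subst h3
    have h4 : (I.image fun i : ℕ => ((2 : ZMod p) ^ i, (0 : ZMod p))) = ∅ :=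
      disjoint_self_iff_empty _ |>.1 hd
    exact ⟨h4, h4⟩
  omega

end Pool.Agent.Lib.MP_8ac08c_co.SQ
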