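import Mathlib
import Pool.Agent.Lib.MP_8ac08c_co.SQ.Stm

/-!
# MP_8ac08c_co, project SQ, piece mat: pairs of different classes, or a large class
-/

set_option autoImplicit false

open Finset

namespace Pool.Agent.Lib.MP_8ac08c_co.SQ

theorem mat_flat_length {G : Type} (l : List (G × G)) : (flat l).length = 2 * l.length := by
  unfold flat
  induction l with
  | nil => rfl
  | cons x l ih =>
    rw [List.flatMap_cons, List.length_append, ih]
    simp
    ring

theorem p_mat : S_mat := by
  intro p A q
  induction q with
  | zero =>
    intro _
    exact Or.inl ⟨[], rfl, by simp [flat], by simp [flat], by simp⟩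
  | succ q ih =>
    intro hq
    rcases ih (by omega) with ⟨l, hl, hnd, hmem, hcl⟩ | ⟨a, ha, hcard⟩
    · have hfc : #(flat l).toFinset = 2 * q := by
        rw [List.toFinset_card_of_nodup hnd, mat_flat_length, hl]
      have hsub : (flat l).toFinset ⊆ A := fun z hz => hmem z (List.mem_toFinset.1 hz)
      have hA' : #(A \ (flat l).toFinset) = #A - 2 * q := by
        rw [card_sdiff_of_subset hsub, hfc]
      by_cases hex : ∃ a ∈ A \ (flat l).toFinset, ∃ b ∈ A \ (flat l).toFinset,
          a.1 ≠ b.1 ∧ a.1 ≠ - b.1
      · obtain ⟨a, ha, b, hb, hab, hab'⟩ := hex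
        rw [mem_sdiff, List.mem_toFinset] at ha hb
        left
        refine ⟨(a, b) :: l, by simp [hl], ?_, ?_, ?_⟩
        · have : flat ((a, b) :: l) = a :: b :: flat l := by simp [flat]
          rw [this, List.nodup_cons, List.nodup_cons]
          refine ⟨?_, hb.2, hnd⟩
          rw [List.mem_cons]
          rintro (rfl | h)
          · exact hab rfl
          · exact ha.2 h
        · have : flat ((a, b) :: l) = a :: b :: flat l := by simp [flat]
          rw [this]
          intro z hz
          rw [List.mem_cons, List.mem_cons] at hz
          rcases hz with rfl | rfl | hz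
          · exact ha.1
          · exact hb.1
          · exact hmem z hz
        · intro x hx
          rw [List.mem_cons] at hx
          rcases hx with rfl | hx
          · exact ⟨hab, hab'⟩
          · exact hcl x hx
      · right
        have hne : (A \ (flat l).toFinset).Nonempty := by
          rw [← card_pos, hA']
          omega
        obtain ⟨a, ha⟩ := hne
        refine ⟨a, (mem_sdiff.1 ha).1, ?_⟩
        have hss : A \ (flat l).toFinset ⊆ A.filter fun b => b.1 = a.1 ∨ b.1 = - a.1 := by
          intro b hb
          rw [mem_filter]
          refine ⟨(mem_sdiff.1 hb).1, ?_⟩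
          by_contra hcon
          push Not at hcon
          exact hex ⟨b, hb, a, ha, hcon.1, hcon.2⟩
        have := card_le_card hss
        omega
    · right
      exact ⟨a, ha, by omega⟩

end Pool.Agent.Lib.MP_8ac08c_co.SQ
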