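import Pool.Agent.Lib.MP_8ac08c_co.SQ.Stm

set_option autoImplicit false

namespace Pool.Agent.Lib.MP_8ac08c_co.SQ

private lemma num_pow : ∀ t : ℕ, 39 ≤ t → 10 ^ 6 * t ≤ 2 ^ t := by
  intro t ht
  induction t, ht using Nat.le_induction with
  | base => norm_num
  | succ t ht ih =>
    rw [pow_succ]
    omega

private lemma num_pow' : ∀ t : ℕ, 40 ≤ t → 25 * 10 ^ 9 * (5 * t + 4) ≤ 6 * 2 ^ t := by
  intro t ht
  induction t, ht using Nat.le_induction with
  | base => norm_num
  | succ t ht ih =>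
    rw [pow_succ]
    omega

theorem p_num : S_num := by
  intro p hp
  have hp0 : p ≠ 0 := by omega
  set t := Nat.log 2 p with ht
  have h1 : 2 ^ t ≤ p := Nat.pow_log_le_self 2 hp0
  have h2 : p < 2 ^ (t + 1) := Nat.lt_pow_succ_log_self (by norm_num) p
  have h39 : 39 ≤ t := by
    rw [ht]
    exact Nat.le_log_of_pow_le (by norm_num) (le_trans (by norm_num) hp)
  have h6 : 10 ^ 6 * t ≤ p := (num_pow t h39).trans h1
  refine ⟨h39, h6, ?_, ?_⟩
  · intro E hE
    have hlog : Real.log p ≤ t + 1 := by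
      have hpos : (0 : ℝ) < p := by positivity
      have hlt : (p : ℝ) ≤ 2 ^ (t + 1) := by exact_mod_cast h2.le
      have h3 : Real.log p ≤ Real.log (2 ^ (t + 1)) := Real.log_le_log hpos hlt
      rw [Real.log_pow] at h3
      have h4 : Real.log 2 ≤ 1 := by linarith [Real.log_two_lt_d9]
      have h5 : ((t + 1 : ℕ) : ℝ) * Real.log 2 ≤ ((t + 1 : ℕ) : ℝ) * 1 :=
        mul_le_mul_of_nonneg_left h4 (by positivity)
      push_cast at h3 h5
      linarith
    have h3 : (10 * E : ℝ) ≤ ((25 * 10 ^ 9 * (5 * t + 4) : ℕ) : ℝ) := by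
      push_cast
      norm_num at hE
      linarith
    have h4 : 10 * E ≤ 25 * 10 ^ 9 * (5 * t + 4) := by exact_mod_cast h3
    refine h4.trans ?_
    rcases Nat.lt_or_ge t 40 with h | h
    · have : t = 39 := by omega
      rw [this]
      omega
    · exact (num_pow' t h).trans (Nat.mul_le_mul_left 6 h1)
  · intro Nc hN
    have h3 : ((10 ^ 5 * Nc : ℕ) : ℝ) ≤ ((2 * p + 3 * 10 ^ 5 : ℕ) : ℝ) := by
      push_cast
      linarith
    have h4 : 10 ^ 5 * Nc ≤ 2 * p + 3 * 10 ^ 5 := by exact_mod_cast h3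
    omega

end Pool.Agent.Lib.MP_8ac08c_co.SQ
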