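import Pool.Agent.Lib.MP_8ac08c_co.SQ.Stm

/-!
# MP_8ac08c_co, project SQ, piece rsum: restricted sums cover `Z_p`
-/

set_option autoImplicit false

open Finset

open scoped Pointwise

namespace Pool.Agent.Lib.MP_8ac08c_co.SQ

private theorem rsum_card_D {p : ℕ} (X : Finset (ZMod p)) (b b' : ZMod p) (k : ℕ)
    (hk : #(X.image (fun x => x + b) ∩ X.image (fun x => x + b')) = k) :
    2 * #X = #(X.image (fun x => x + b) ∪ X.image (fun x => x + b')) + k := by
  have h1 := Finset.card_union_add_card_inter (X.image (fun x => x + b))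
    (X.image (fun x => x + b'))
  rw [Finset.card_image_of_injective _ (add_left_injective b),
    Finset.card_image_of_injective _ (add_left_injective b'), hk] at h1
  omega

/-- four distinct elements with a given sum -/
private theorem rsum_four (h1 : S_spl) (h2 : S_avg) (p : ℕ) (hp : p.Prime) (ι : Type)
    [DecidableEq ι] (s : Finset ι) (f : ι → ZMod p)
    (hf : ∀ y, #(s.filter fun a => f a = y) ≤ 2) (hs : 8 * p + 66 ≤ 9 * #s) (z : ZMod p) :
    ∃ O ⊆ s, #O = 4 ∧ ∑ a ∈ O, f a = z := by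
  have : NeZero p := ⟨hp.ne_zero⟩
  have hp2 := hp.two_le
  obtain ⟨U₁, hU₁, hc₁, hi₁, hi₂⟩ := h1 ι (ZMod p) s f hf
  set h := #s / 2 with hh
  have hh5 : 5 ≤ h := by omega
  have hc₂ : #(s \ U₁) = #s - h := by rw [card_sdiff_of_subset hU₁, hc₁]
  obtain ⟨X, hX, hcX⟩ := Finset.exists_subset_card_eq (s := U₁) (n := h / 2) (by omega)
  obtain ⟨Y, hY, hcY⟩ := Finset.exists_subset_card_eq (s := s \ U₁) (n := h) (by omega)
  have iX : #(X.image f) = h / 2 := by
    rw [Finset.card_image_of_injOn (hi₁.mono (by exact_mod_cast hX)), hcX]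
  have iY : #(Y.image f) = h := by
    rw [Finset.card_image_of_injOn (hi₂.mono (by exact_mod_cast hY)), hcY]
  obtain ⟨c, hc, c', hc', hne, hk⟩ := h2 (ZMod p) (X.image f) (Y.image f) (by omega)
  obtain ⟨b, hb, rfl⟩ := Finset.mem_image.1 hc
  obtain ⟨b', hb', rfl⟩ := Finset.mem_image.1 hc'
  have hD := rsum_card_D (X.image f) (f b) (f b') _ rfl
  set k := #((X.image f).image (fun x => x + f b) ∩ (X.image f).image (fun x => x + f b'))
    with hkdef
  set D := (X.image f).image (fun x => x + f b) ∪ (X.image f).image (fun x => x + f b') with hDdef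
  rw [iX] at hk hD
  rw [iY] at hk
  -- bound of k
  have hk4 : 4 * k ≤ h + 2 := by
    by_contra hcon
    push Not at hcon
    have e1 : 2 * (h / 2) ≤ h := by omega
    have e2 : (2 * (h / 2)) ^ 2 ≤ h ^ 2 := Nat.pow_le_pow_left e1 2
    obtain ⟨m, hm⟩ : ∃ m, h = m + 1 := ⟨h - 1, by omega⟩
    have e3 : h - 1 = m := by omega
    rw [e3] at hk
    have e4 : (m + 4) * m ≤ (4 * k) * m := Nat.mul_le_mul_right m (by omega)
    have e5 : h ^ 2 = (m + 1) ^ 2 := by rw [hm]
    have hm4 : 4 ≤ m := by omega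
    nlinarith
  have hbne : b ≠ b' := fun h => hne (by rw [h])
  set V := (s \ U₁) \ {b, b'} with hV
  have hcV : #V = #s - h - 2 := by
    rw [hV, card_sdiff_of_subset, hc₂, Finset.card_pair hbne]
    intro w hw
    rw [Finset.mem_insert, Finset.mem_singleton] at hw
    rcases hw with rfl | rfl
    · exact hY hb
    · exact hY hb'
  have hcW : #(U₁ \ X) = h - h / 2 := by rw [card_sdiff_of_subset hX, hc₁, hcX]
  have iW : #((U₁ \ X).image f) = h - h / 2 := by
    rw [Finset.card_image_of_injOn (hi₁.mono (by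
      exact_mod_cast (Finset.sdiff_subset : U₁ \ X ⊆ U₁))), hcW]
  have iV : #(V.image f) = #s - h - 2 := by
    rw [Finset.card_image_of_injOn (hi₂.mono (by
      exact_mod_cast (Finset.sdiff_subset : (s \ U₁) \ {b, b'} ⊆ s \ U₁))), hcV]
  have nD : D.Nonempty := by
    rw [← Finset.card_pos]; omega
  have nW : ((U₁ \ X).image f).Nonempty := by
    rw [← Finset.card_pos]; omega
  have nV : (V.image f).Nonempty := by
    rw [← Finset.card_pos]; omega
  have cd1 := ZMod.cauchy_davenport hp nD nW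
  have cd2 := ZMod.cauchy_davenport hp (nD.add nW) nV
  rw [iW] at cd1
  rw [iV] at cd2
  have hfull : p ≤ #(D + (U₁ \ X).image f + V.image f) := by
    refine le_trans ?_ cd2
    rw [le_min_iff]
    refine ⟨le_rfl, ?_⟩
    have h3 : min p (#D + (h - h / 2) - 1) ≤ #(D + (U₁ \ X).image f) := cd1
    rcases le_total p (#D + (h - h / 2) - 1) with h4 | h4
    · rw [min_eq_left h4] at h3
      omega
    · rw [min_eq_right h4] at h3
      omega
  have huniv : D + (U₁ \ X).image f + V.image f = univ := by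
    apply Finset.eq_univ_of_card
    rw [ZMod.card]
    apply le_antisymm _ hfull
    refine le_trans (Finset.card_le_univ _) ?_
    rw [ZMod.card]
  have hz : z ∈ D + (U₁ \ X).image f + V.image f := by rw [huniv]; exact mem_univ z
  obtain ⟨w, hw, v', hv', rfl⟩ := Finset.mem_add.1 hz
  obtain ⟨d, hd, u', hu', rfl⟩ := Finset.mem_add.1 hw
  obtain ⟨v, hv, rfl⟩ := Finset.mem_image.1 hv'
  obtain ⟨u, hu, rfl⟩ := Finset.mem_image.1 hu'
  have hd' : ∃ x ∈ X, ∃ y, (y = b ∨ y = b') ∧ d = f x + f y := by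
    rw [hDdef, Finset.mem_union, Finset.mem_image, Finset.mem_image] at hd
    rcases hd with ⟨e, he, rfl⟩ | ⟨e, he, rfl⟩
    · obtain ⟨x, hx, rfl⟩ := Finset.mem_image.1 he
      exact ⟨x, hx, b, Or.inl rfl, rfl⟩
    · obtain ⟨x, hx, rfl⟩ := Finset.mem_image.1 he
      exact ⟨x, hx, b', Or.inr rfl, rfl⟩
  obtain ⟨x, hx, y, hy, rfl⟩ := hd'
  have hyY : y ∈ Y := by
    rcases hy with rfl | rfl
    · exact hb
    · exact hb'
  have hyU : y ∈ s \ U₁ := hY hyY
  rw [mem_sdiff] at hu hyU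
  rw [hV, mem_sdiff, mem_sdiff, mem_insert, mem_singleton] at hv
  have hxU := hX hx
  have n1 : x ≠ y := fun h => hyU.2 (h ▸ hxU)
  have n2 : x ≠ u := fun h => hu.2 (h ▸ hx)
  have n3 : x ≠ v := fun h => hv.1.2 (h ▸ hxU)
  have n4 : y ≠ u := fun h => hyU.2 (h ▸ hu.1)
  have n5 : y ≠ v := fun h => hv.2 (h ▸ hy)
  have n6 : u ≠ v := fun h => hv.1.2 (h ▸ hu.1)
  refine ⟨{x, y, u, v}, ?_, ?_, ?_⟩
  · intro a ha
    rw [mem_insert, mem_insert, mem_insert, mem_singleton] at ha
    rcases ha with rfl | rfl | rfl | rfl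
    · exact hU₁ hxU
    · exact hyU.1
    · exact hU₁ hu.1
    · exact hv.1.1
  · rw [Finset.card_insert_of_notMem, Finset.card_insert_of_notMem, Finset.card_pair n6]
    · simp [n4, n5]
    · simp [n1, n2, n3]
  · rw [Finset.sum_insert, Finset.sum_insert, Finset.sum_pair n6]
    · ring
    · simp [n4, n5]
    · simp [n1, n2, n3]

theorem p_rsum (h1 : S_spl) (h2 : S_avg) : S_rsum := by
  intro p hp ι _ s f hf t ht hs z
  obtain ⟨O₀, hO₀, hc₀⟩ := Finset.exists_subset_card_eq (s := s) (n := t - 4) (by omega)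
  have hc : #(s \ O₀) = #s - (t - 4) := by rw [card_sdiff_of_subset hO₀, hc₀]
  obtain ⟨O, hO, hcO, hsum⟩ := rsum_four h1 h2 p hp ι (s \ O₀) f
    (fun y => le_trans (Finset.card_le_card
      (Finset.filter_subset_filter _ Finset.sdiff_subset)) (hf y))
    (by omega) (z - ∑ a ∈ O₀, f a)
  have hdis : Disjoint O₀ O := by
    rw [Finset.disjoint_left]
    intro a ha ha'
    exact (mem_sdiff.1 (hO ha')).2 ha
  refine ⟨O₀ ∪ O, ?_, ?_, ?_⟩
  · exact Finset.union_subset hO₀ (fun a ha => (mem_sdiff.1 (hO ha)).1)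
  · rw [Finset.card_union_of_disjoint hdis, hc₀, hcO]
    omega
  · rw [Finset.sum_union hdis, hsum]
    ring

end Pool.Agent.Lib.MP_8ac08c_co.SQ
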