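import Pool.Agent.Lib.MP_8ac08c_co.SQ.Stm

/-!
# MP_8ac08c_co, project SQ: selection of signs for a list of pairs
-/

set_option autoImplicit false

open Finset

namespace Pool.Agent.Lib.MP_8ac08c_co.SQ

private theorem sel_step {G : Type} [AddCommGroup G] [DecidableEq G] (S P N : Finset G) (a b : G)
    (c c' : G) (n : ℕ) (hab : a ≠ b) (ha : a ∉ S) (hb : b ∉ S) (hPN : P ∪ N = S)
    (hd : Disjoint P N) (hc : #P + #N = n) (hs : ∑ x ∈ P, x = ∑ x ∈ N, x + c)
    (hcc : a + c = b + c') :
    insert a P ∪ insert b N = insert a (insert b S) ∧ Disjoint (insert a P) (insert b N) ∧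
      #(insert a P) + #(insert b N) = n + 2 ∧
      ∑ x ∈ insert a P, x = ∑ x ∈ insert b N, x + c' := by
  have haP : a ∉ P := fun h => ha (hPN ▸ Finset.mem_union_left _ h)
  have haN : a ∉ N := fun h => ha (hPN ▸ Finset.mem_union_right _ h)
  have hbP : b ∉ P := fun h => hb (hPN ▸ Finset.mem_union_left _ h)
  have hbN : b ∉ N := fun h => hb (hPN ▸ Finset.mem_union_right _ h)
  refine ⟨?_, ?_, ?_, ?_⟩
  · rw [← hPN]
    ext x
    simp only [Finset.mem_union, Finset.mem_insert]
    tauto
  · rw [Finset.disjoint_insert_left, Finset.disjoint_insert_right, Finset.mem_insert, not_or]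
    exact ⟨⟨hab, haN⟩, hbP, hd⟩
  · rw [Finset.card_insert_of_notMem haP, Finset.card_insert_of_notMem hbN]
    omega
  · rw [Finset.sum_insert haP, Finset.sum_insert hbN, hs, add_comm (∑ x ∈ N, x) c, ← add_assoc,
      hcc]
    abel

theorem p_sel : S_sel := by
  intro p Y l
  induction l with
  | nil =>
    intro _ z hz
    have hz0 : z = 0 := by
      have : z ∈ ({0} : Finset (ZMod p)) := hz
      exact Finset.mem_singleton.1 this
    refine ⟨∅, ∅, rfl, Finset.disjoint_empty_left _, rfl, ?_⟩
    rw [Finset.sum_empty, hz0, zero_add]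
    rfl
  | cons x l ih =>
    intro hPL z hz
    have hflat : flat (x :: l) = x.1 :: x.2 :: flat l := rfl
    have hnd := hPL.nodup
    rw [hflat, List.nodup_cons, List.nodup_cons, List.mem_cons, not_or] at hnd
    obtain ⟨⟨hne, h1⟩, h2, h3⟩ := hnd
    have hPL' : PairList Y l := ⟨h3, fun w hw => hPL.mem w (by
      rw [hflat]
      exact List.mem_cons_of_mem _ (List.mem_cons_of_mem _ hw)), fun w hw =>
        hPL.fst w (List.mem_cons_of_mem _ hw)⟩
    have hx : x.1.1 = x.2.1 := hPL.fst x List.mem_cons_self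
    have hfs : (flat (x :: l)).toFinset = insert x.1 (insert x.2 (flat l).toFinset) := by
      rw [hflat, List.toFinset_cons, List.toFinset_cons]
    have h1' : x.1 ∉ (flat l).toFinset := fun h => h1 (List.mem_toFinset.1 h)
    have h2' : x.2 ∉ (flat l).toFinset := fun h => h2 (List.mem_toFinset.1 h)
    have hz' : z ∈ (sg l).image (fun s => s + (x.1.2 - x.2.2)) ∪
      (sg l).image (fun s => s - (x.1.2 - x.2.2)) := hz
    rw [Finset.mem_union, Finset.mem_image, Finset.mem_image] at hz'
    rw [List.length_cons, hfs]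
    rcases hz' with ⟨s, hs, hsz⟩ | ⟨s, hs, hsz⟩
    · obtain ⟨P, N, hPN, hd, hc, hsum⟩ := ih hPL' s hs
      obtain ⟨r1, r2, r3, r4⟩ := sel_step (flat l).toFinset P N x.1 x.2 (0, s) (0, z)
        (2 * l.length) hne h1' h2' hPN hd hc hsum (by
          apply Prod.ext
          · show x.1.1 + 0 = x.2.1 + 0
            rw [hx]
          · show x.1.2 + s = x.2.2 + z
            rw [← hsz]
            ring)
      exact ⟨_, _, r1, r2, by rw [r3]; ring, r4⟩
    · obtain ⟨P, N, hPN, hd, hc, hsum⟩ := ih hPL' s hs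
      obtain ⟨r1, r2, r3, r4⟩ := sel_step (flat l).toFinset P N x.2 x.1 (0, s) (0, z)
        (2 * l.length) (Ne.symm hne) h2' h1' hPN hd hc hsum (by
          apply Prod.ext
          · show x.2.1 + 0 = x.1.1 + 0
            rw [hx]
          · show x.2.2 + s = x.1.2 + z
            rw [← hsz]
            ring)
      refine ⟨_, _, ?_, r2, by rw [r3]; ring, r4⟩
      rw [r1, Finset.insert_comm]

end Pool.Agent.Lib.MP_8ac08c_co.SQ
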