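import Pool.Agent.Lib.MP_8ac08c_co.SQ.Stm

/-!
# MP_8ac08c_co, project SQ, piece [SQ spl]: splitting a set with fibres of size at most two
-/

set_option autoImplicit false

open Finset

namespace Pool.Agent.Lib.MP_8ac08c_co.SQ

/-- Piece [SQ spl]. -/
theorem p_spl : S_spl := by
  intro ι β _ _ s f hf
  induction s using Finset.strongInduction with
  | H s ih =>
    by_cases hinj : Set.InjOn f s
    · obtain ⟨s₁, hs₁, hc⟩ := Finset.exists_subset_card_eq (s := s) (n := #s / 2)
        (Nat.div_le_self _ _)
      refine ⟨s₁, hs₁, hc, hinj.mono (by exact_mod_cast hs₁), hinj.mono ?_⟩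
      exact_mod_cast Finset.sdiff_subset
    · simp only [Set.InjOn, not_forall] at hinj
      obtain ⟨a, ha, b, hb, hab, hne⟩ := hinj
      have ha' : a ∈ s := by exact_mod_cast ha
      have hb' : b ∈ s := by exact_mod_cast hb
      set s' : Finset ι := (s.erase a).erase b with hs'
      have hs's : s' ⊆ s := (Finset.erase_subset _ _).trans (Finset.erase_subset _ _)
      have hbe : b ∈ s.erase a := Finset.mem_erase.mpr ⟨fun h => hne h.symm, hb'⟩
      have hcard : #s = #s' + 2 := by
        have h1 := Finset.card_erase_add_one ha'
        have h2 := Finset.card_erase_add_one hbe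
        rw [hs']
        omega
      have hfib : ∀ c ∈ s', f c ≠ f a := by
        intro c hc hcf
        have hcb : c ≠ b := (Finset.mem_erase.mp hc).1
        have hca : c ≠ a := (Finset.mem_erase.mp (Finset.mem_erase.mp hc).2).1
        have h3 : ({a, b, c} : Finset ι) ⊆ s.filter fun x => f x = f a := by
          intro x hx
          simp only [Finset.mem_insert, Finset.mem_singleton] at hx
          rw [Finset.mem_filter]
          rcases hx with rfl | rfl | rfl
          · exact ⟨ha', rfl⟩
          · exact ⟨hb', hab.symm⟩
          · exact ⟨hs's hc, hcf⟩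
        have h4 : #({a, b, c} : Finset ι) = 3 := by
          rw [Finset.card_eq_three]
          exact ⟨a, b, c, hne, fun h => hca h.symm, fun h => hcb h.symm, rfl⟩
        have h5 := (Finset.card_le_card h3).trans (hf (f a))
        omega
      have hss : s' ⊂ s := by
        refine (Finset.ssubset_iff_subset_ne).mpr ⟨hs's, fun h => ?_⟩
        rw [h] at hcard
        omega
      obtain ⟨t, hts, htc, hti, htd⟩ := ih s' hss fun y =>
        (Finset.card_le_card (Finset.filter_subset_filter _ hs's)).trans (hf y)
      have hat : a ∉ t := fun h => by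
        have := (Finset.mem_erase.mp (Finset.mem_erase.mp (hts h)).2).1
        exact this rfl
      have hbt : b ∉ t := fun h => by
        have := (Finset.mem_erase.mp (hts h)).1
        exact this rfl
      have hdiff : s \ insert a t = insert b (s' \ t) := by
        ext x
        simp only [Finset.mem_sdiff, Finset.mem_insert, not_or, hs', Finset.mem_erase]
        constructor
        · rintro ⟨hx, hxa, hxt⟩
          by_cases hxb : x = b
          · exact Or.inl hxb
          · exact Or.inr ⟨⟨hxb, hxa, hx⟩, hxt⟩
        · rintro (rfl | ⟨⟨hxb, hxa, hx⟩, hxt⟩)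
          · exact ⟨hb', fun h => hne h.symm, hbt⟩
          · exact ⟨hx, hxa, hxt⟩
      refine ⟨insert a t, ?_, ?_, ?_, ?_⟩
      · intro x hx
        rcases Finset.mem_insert.mp hx with rfl | hx
        · exact ha'
        · exact hs's (hts hx)
      · rw [Finset.card_insert_of_notMem hat, htc, hcard]
        omega
      · rw [Finset.coe_insert, Set.injOn_insert (by exact_mod_cast hat)]
        refine ⟨hti, ?_⟩
        rintro ⟨c, hc, hcf⟩
        exact hfib c (hts (by exact_mod_cast hc)) hcf
      · rw [hdiff, Finset.coe_insert, Set.injOn_insert]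
        · refine ⟨htd, ?_⟩
          rintro ⟨c, hc, hcf⟩
          have hc' : c ∈ s' \ t := by exact_mod_cast hc
          exact hfib c (Finset.mem_sdiff.mp hc').1 (hcf.trans hab.symm)
        · intro hb2
          have hb3 : b ∈ s' \ t := by exact_mod_cast hb2
          exact (Finset.mem_erase.mp (Finset.mem_sdiff.mp hb3).1).1 rfl

end Pool.Agent.Lib.MP_8ac08c_co.SQ
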