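import Pool.Agent.Lib.MP_8ac08c_co.SQ.Stm

/-!
# MP_8ac08c_co, project SQ, piece stp: one more pair with the same first coordinate
-/

set_option autoImplicit false

open Finset

namespace Pool.Agent.Lib.MP_8ac08c_co.SQ

private theorem stp_flat_cons {G : Type} (x : G × G) (l : List (G × G)) :
    flat (x :: l) = x.1 :: x.2 :: flat l := rfl

private theorem stp_flat_length {G : Type} (l : List (G × G)) : (flat l).length = 2 * l.length := by
  induction l with
  | nil => rfl
  | cons x l ih =>
    rw [stp_flat_cons, List.length_cons, List.length_cons, ih, List.length_cons]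
    ring

/-- [SQ stp] one more pair -/
theorem p_stp : S_stp := by
  classical
  intro p hp hp2 Y l hl hsg hcard
  have : Fact p.Prime := ⟨hp⟩
  have h2 : (2 : ZMod p) ≠ 0 := by
    intro h
    have h3 : ((2 : ℕ) : ZMod p) = 0 := by exact_mod_cast h
    rw [ZMod.natCast_eq_zero_iff] at h3
    exact hp2 ((Nat.prime_dvd_prime_iff_eq hp Nat.prime_two).1 h3)
  set Y' := Y \ (flat l).toFinset with hY'
  have hc1 : #(flat l).toFinset ≤ 2 * l.length := by
    rw [← stp_flat_length l]
    exact List.toFinset_card_le _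
  have hc2 : #Y ≤ #Y' + #(flat l).toFinset := by
    have h7 : #Y - #(flat l).toFinset ≤ #Y' := Finset.le_card_sdiff (flat l).toFinset Y
    omega
  have hc3 : #(Y.image Prod.fst) * 4 ^ l.length < #Y' := by
    rw [mul_comm]
    omega
  obtain ⟨v, -, hv⟩ := Finset.exists_lt_card_fiber_of_mul_lt_card_of_maps_to
    (s := Y') (t := Y.image Prod.fst) (f := Prod.fst) (n := 4 ^ l.length)
    (fun a ha => Finset.mem_image_of_mem _ (Finset.mem_sdiff.1 ha).1) hc3
  set F := Y'.filter (fun z => z.1 = v) with hF
  have hFpos : 0 < #F := lt_of_le_of_lt (Nat.zero_le _) hv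
  obtain ⟨z0, hz0⟩ := Finset.card_pos.1 hFpos
  set E := ((sg l) ×ˢ (sg l)).image (fun x => (x.1 - x.2) / 2) with hE
  have hEc : #E ≤ 4 ^ l.length := by
    refine Finset.card_image_le.trans ?_
    rw [Finset.card_product, hsg, ← mul_pow]
    norm_num
  have hinj : Set.InjOn (fun z : ZMod p × ZMod p => z.2 - z0.2) F := by
    intro a ha b hb hab
    have ha' := (Finset.mem_filter.1 (Finset.mem_coe.1 ha)).2
    have hb' := (Finset.mem_filter.1 (Finset.mem_coe.1 hb)).2
    exact Prod.ext (ha'.trans hb'.symm) (sub_left_injective hab)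
  have hlt : #E < #(F.image fun z => z.2 - z0.2) := by
    rw [Finset.card_image_of_injOn hinj]
    exact lt_of_le_of_lt hEc hv
  obtain ⟨d, hd, hdE⟩ := Finset.exists_mem_notMem_of_card_lt_card hlt
  obtain ⟨z, hz, rfl⟩ := Finset.mem_image.1 hd
  have hne : (sg l).Nonempty := by
    rw [← Finset.card_pos, hsg]
    positivity
  have h0E : (0 : ZMod p) ∈ E := by
    obtain ⟨s, hs⟩ := hne
    exact Finset.mem_image.2 ⟨(s, s), Finset.mk_mem_product hs hs, by simp⟩
  have hzz0 : z ≠ z0 := by
    rintro rfl
    apply hdE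
    rw [sub_self]
    exact h0E
  have hzF := Finset.mem_filter.1 hz
  have hz0F := Finset.mem_filter.1 hz0
  have hzY := Finset.mem_sdiff.1 hzF.1
  have hz0Y := Finset.mem_sdiff.1 hz0F.1
  refine ⟨(z, z0), ⟨?_, ?_, ?_⟩, ?_⟩
  · rw [stp_flat_cons]
    refine List.nodup_cons.2 ⟨?_, List.nodup_cons.2 ⟨?_, hl.nodup⟩⟩
    · intro h
      rcases List.mem_cons.1 h with h | h
      · exact hzz0 h
      · exact hzY.2 (List.mem_toFinset.2 h)
    · intro h
      exact hz0Y.2 (List.mem_toFinset.2 h)
  · intro a ha
    rw [stp_flat_cons] at ha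
    rcases List.mem_cons.1 ha with rfl | ha
    · exact hzY.1
    · rcases List.mem_cons.1 ha with rfl | ha
      · exact hz0Y.1
      · exact hl.mem a ha
  · intro x hx
    rcases List.mem_cons.1 hx with rfl | hx
    · exact hzF.2.trans hz0F.2.symm
    · exact hl.fst x hx
  · have hdis : Disjoint ((sg l).image (fun s => s + (z.2 - z0.2)))
        ((sg l).image (fun s => s - (z.2 - z0.2))) := by
      rw [Finset.disjoint_left]
      intro a ha hb
      obtain ⟨s, hs, rfl⟩ := Finset.mem_image.1 ha
      obtain ⟨s', hs', hss⟩ := Finset.mem_image.1 hb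
      apply hdE
      refine Finset.mem_image.2 ⟨(s', s), Finset.mk_mem_product hs' hs, ?_⟩
      dsimp only
      rw [div_eq_iff h2]
      linear_combination hss
    show #((sg l).image (fun s => s + (z.2 - z0.2)) ∪
      (sg l).image (fun s => s - (z.2 - z0.2))) = _
    rw [Finset.card_union_of_disjoint hdis,
      Finset.card_image_of_injective _ (add_left_injective _),
      Finset.card_image_of_injective _ (sub_left_injective), hsg, pow_succ]
    ring

end Pool.Agent.Lib.MP_8ac08c_co.SQ
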