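import Pool.Agent.Lib.MP_8ac08c_co.SQ.Stm
import Pool.Agent.Lib.MP_8ac08c_co.Basic

set_option autoImplicit false

open Finset

namespace Pool.Agent.Lib.MP_8ac08c_co.SQ

theorem p_up : S_up := by
  intro p hp h
  have : NeZero p := ⟨hp.ne_zero⟩
  obtain ⟨A, hA, hc⟩ := exists_tau (G := ZMod p × ZMod p) hp.pos
  rw [← hc]
  by_contra hlt
  have hp1 := hp.pos
  obtain ⟨B, hB, hBc⟩ := exists_subset_card_eq (show p + Nat.log 2 p ≤ #A by omega)
  obtain ⟨P, N, hP, hN, hd, hk, hs⟩ := h B hBc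
  apply hA
  exact ⟨P, N, hP.trans hB, hN.trans hB, hd, hk, by rw [hs, sub_self]; exact zero_mem _⟩

end Pool.Agent.Lib.MP_8ac08c_co.SQ
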