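import Pool.Agent.Lib.MP_8ac08c_co.SQ.Stm

/-!
# MP_8ac08c_co, project SQ, piece app: concatenation of lists of pairs
-/

set_option autoImplicit false

open Finset

namespace Pool.Agent.Lib.MP_8ac08c_co.SQ

private lemma app_mem {p : ℕ} (x : (ZMod p × ZMod p) × (ZMod p × ZMod p))
    (l : List ((ZMod p × ZMod p) × (ZMod p × ZMod p))) (z : ZMod p) :
    z ∈ sg (x :: l) ↔ ∃ s ∈ sg l, s + (x.1.2 - x.2.2) = z ∨ s - (x.1.2 - x.2.2) = z := by
  rw [sg, mem_union, mem_image, mem_image]
  constructor
  · rintro (⟨s, hs, h⟩ | ⟨s, hs, h⟩)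
    · exact ⟨s, hs, Or.inl h⟩
    · exact ⟨s, hs, Or.inr h⟩
  · rintro ⟨s, hs, h | h⟩
    · exact Or.inl ⟨s, hs, h⟩
    · exact Or.inr ⟨s, hs, h⟩

private lemma app_sg {p : ℕ} (l l' : List ((ZMod p × ZMod p) × (ZMod p × ZMod p))) (z : ZMod p) :
    z ∈ sg (l ++ l') ↔ ∃ s ∈ sg l, ∃ s' ∈ sg l', s + s' = z := by
  induction l generalizing z with
  | nil =>
    rw [List.nil_append]
    constructor
    · intro h
      exact ⟨0, by simp [sg], z, h, zero_add z⟩
    · rintro ⟨s, hs, s', hs', h⟩
      have h0 : s = 0 := by simpa [sg] using hs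
      rw [h0, zero_add] at h
      rwa [← h]
  | cons x l ih =>
    rw [List.cons_append, app_mem]
    constructor
    · rintro ⟨s, hs, h⟩
      obtain ⟨a, ha, b, hb, hab⟩ := (ih s).mp hs
      rcases h with h | h
      · refine ⟨a + (x.1.2 - x.2.2), (app_mem x l _).mpr ⟨a, ha, Or.inl rfl⟩, b, hb, ?_⟩
        rw [← h, ← hab]; ring
      · refine ⟨a - (x.1.2 - x.2.2), (app_mem x l _).mpr ⟨a, ha, Or.inr rfl⟩, b, hb, ?_⟩
        rw [← h, ← hab]; ring
    · rintro ⟨s, hs, s', hs', h⟩
      obtain ⟨a, ha, h1⟩ := (app_mem x l s).mp hs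
      refine ⟨a + s', (ih _).mpr ⟨a, ha, s', hs', rfl⟩, ?_⟩
      rcases h1 with h1 | h1
      · left
        rw [← h, ← h1]; ring
      · right
        rw [← h, ← h1]; ring

private lemma app_ne {p : ℕ} (l : List ((ZMod p × ZMod p) × (ZMod p × ZMod p))) :
    (sg l).Nonempty := by
  induction l with
  | nil => exact ⟨0, by simp [sg]⟩
  | cons x l ih =>
    obtain ⟨s, hs⟩ := ih
    exact ⟨s + (x.1.2 - x.2.2), (app_mem x l _).mpr ⟨s, hs, Or.inl rfl⟩⟩

private lemma app_flat {G : Type} (l l' : List (G × G)) : flat (l ++ l') = flat l ++ flat l' := by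
  unfold flat
  exact List.flatMap_append

private lemma app_len {G : Type} (l : List (G × G)) : (flat l).length = 2 * l.length := by
  induction l with
  | nil => rfl
  | cons x l ih =>
    have h : flat (x :: l) = x.1 :: x.2 :: flat l := rfl
    rw [h, List.length_cons, List.length_cons, ih, List.length_cons]
    ring

theorem p_app : S_app := by
  intro p l l'
  refine ⟨?_, app_ne l, ?_, ?_, app_len l⟩
  · ext z
    rw [app_sg, mem_image]
    constructor
    · rintro ⟨s, hs, s', hs', h⟩
      exact ⟨(s, s'), mem_product.mpr ⟨hs, hs'⟩, h⟩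
    · rintro ⟨⟨s, s'⟩, hs, h⟩
      rw [mem_product] at hs
      exact ⟨s, hs.1, s', hs.2, h⟩
  · intro Y h1 h2
    refine ⟨?_, ?_, ?_⟩
    · rw [app_flat]
      refine List.Nodup.append h1.nodup h2.nodup ?_
      intro z hz hz'
      have := h1.mem z hz
      rw [mem_sdiff, List.mem_toFinset] at this
      exact this.2 hz'
    · intro z hz
      rw [app_flat, List.mem_append] at hz
      rcases hz with hz | hz
      · exact (mem_sdiff.mp (h1.mem z hz)).1
      · exact h2.mem z hz
    · intro x hx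
      rcases List.mem_append.mp hx with hx | hx
      · exact h1.fst x hx
      · exact h2.fst x hx
  · intro Y h
    have hn := h.nodup
    rw [app_flat] at hn
    have hm := h.mem
    rw [app_flat] at hm
    have hd : List.Disjoint (flat l) (flat l') := List.disjoint_of_nodup_append hn
    refine ⟨⟨hn.of_append_left, fun z hz => hm z (List.mem_append_left _ hz),
      fun x hx => h.fst x (List.mem_append_left _ hx)⟩,
      ⟨hn.of_append_right, fun z hz => ?_, fun x hx => h.fst x (List.mem_append_right _ hx)⟩⟩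
    rw [mem_sdiff, List.mem_toFinset]
    exact ⟨hm z (List.mem_append_right _ hz), fun hz' => hd hz' hz⟩

end Pool.Agent.Lib.MP_8ac08c_co.SQ
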